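import Pool.Agent.R226.RC.Big

set_option autoImplicit false

/-!
The extension of rings.
-/

namespace Pool.Agent.R226.RC

open Cardinal MonoidAlgebra

/-- The group of all permutations of the index set. -/
abbrev G : Type := Equiv.Perm L

/-- The action on the finite subsets. -/
def act (g : G) (i : D) : D := ⟨i.s.map g.toEmbedding⟩

theorem mem_act (g : G) (i : D) (x : L) : D.mem x (act g i) ↔ D.mem (g.symm x) i := by
  change x ∈ i.s.map g.toEmbedding ↔ g.symm x ∈ i.s
  exact Finset.mem_map_equiv

theorem act_one (i : D) : act 1 i = i := D.ext' fun x => by rw [mem_act]; rfl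

theorem act_act (g h : G) (i : D) : act g (act h i) = act (g * h) i :=
  D.ext' fun x => by rw [mem_act, mem_act, mem_act]; rfl

theorem act_mul (g : G) (i j : D) : act g (i * j) = act g i * act g j :=
  D.ext' fun x => by rw [mem_act, D.mem_mul, D.mem_mul, mem_act, mem_act]

theorem act_id (g : G) : act g 1 = 1 :=
  D.ext' fun x => by
    rw [mem_act]
    exact ⟨fun h => (D.not_mem_one _ h).elim, fun h => (D.not_mem_one _ h).elim⟩

theorem act_pt (g : G) (x : L) : act g (D.pt x) = D.pt (g x) :=
  D.ext' fun y => by rw [mem_act, D.mem_pt, D.mem_pt, Equiv.symm_apply_eq]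

/-- The semidirect product of the monoid of finite subsets and the group. -/
@[ext] structure Mo : Type where
  /-- the finite subset -/
  d : D
  /-- the permutation -/
  g : G

noncomputable instance : Monoid Mo where
  mul a b := ⟨a.d * act a.g b.d, a.g * b.g⟩
  one := ⟨1, 1⟩
  mul_assoc a b c := by
    refine Mo.ext ?_ (mul_assoc _ _ _)
    change a.d * act a.g b.d * act (a.g * b.g) c.d = a.d * act a.g (b.d * act b.g c.d)
    rw [act_mul, act_act, mul_assoc]
  one_mul a := by
    refine Mo.ext ?_ (one_mul _)
    change 1 * act 1 a.d = a.d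
    rw [act_one, one_mul]
  mul_one a := by
    refine Mo.ext ?_ (mul_one _)
    change a.d * act a.g 1 = a.d
    rw [act_id, mul_one]

theorem Mo.mul_def (a b : Mo) : a * b = ⟨a.d * act a.g b.d, a.g * b.g⟩ := rfl
theorem Mo.one_def : (1 : Mo) = ⟨1, 1⟩ := rfl

/-- The big ring. -/
abbrev A : Type := MonoidAlgebra k Mo

/-- The inclusion of the monoids. -/
noncomputable def ioD : D →* Mo where
  toFun i := ⟨i, 1⟩
  map_one' := rfl
  map_mul' i j := by
    rw [Mo.mul_def, act_one, one_mul]

/-- The inclusion of the rings. -/
noncomputable def io : S →+* A := mapDomainRingHom k ioD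

theorem io_single (i : D) (c : k) : io (single i c) = single ⟨i, 1⟩ c := by
  change MonoidAlgebra.mapDomain ioD (single i c) = _
  rw [MonoidAlgebra.mapDomain_single]
  rfl

/-- The group elements. -/
noncomputable def ga (g : G) : A := single ⟨1, g⟩ 1

theorem ga_one : ga 1 = 1 := rfl

theorem ga_mul (g h : G) : ga g * ga h = ga (g * h) := by
  rw [ga, ga, single_mul_single, Mo.mul_def, act_id, one_mul, one_mul, ga]

theorem io_mul_ga (i : D) (g : G) : io (single i 1) * ga g = single ⟨i, g⟩ 1 := by
  rw [io_single, ga, single_mul_single, Mo.mul_def, act_one, one_mul, mul_one, one_mul]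

/-- The automorphisms of `S`. -/
noncomputable def sgD (g : G) : D →* D where
  toFun i := act g i
  map_one' := act_id g
  map_mul' := act_mul g

/-- The automorphisms of `S`. -/
noncomputable def sg (g : G) : S →+* S := mapDomainRingHom k (sgD g)

theorem sg_single (g : G) (i : D) (c : k) : sg g (single i c) = single (act g i) c := by
  change MonoidAlgebra.mapDomain (sgD g) (single i c) = _
  rw [MonoidAlgebra.mapDomain_single]
  rfl

theorem ga_mul_io (g : G) (s : S) : ga g * io s = io (sg g s) * ga g := by
  refine S_induction (p := fun s => ga g * io s = io (sg g s) * ga g) ?_ ?_ ?_ s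
  · simp
  · intro s t h1 h2
    rw [map_add, map_add, map_add, mul_add, add_mul, h1, h2]
  · intro i
    rw [sg_single, io_single, io_single, ga, single_mul_single, single_mul_single]
    congr 1
    refine Mo.ext ?_ ?_
    · change 1 * act g i = act g i * act 1 1
      rw [one_mul, act_id, mul_one]
    · change g * 1 = 1 * g
      rw [one_mul, mul_one]

theorem sg_sg (g h : G) (s : S) : sg g (sg h s) = sg (g * h) s := by
  refine S_induction (p := fun s => sg g (sg h s) = sg (g * h) s) ?_ ?_ ?_ s
  · simp
  · intro s t h1 h2
    rw [map_add, map_add, map_add, h1, h2]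
  · intro i
    rw [sg_single, sg_single, sg_single, act_act]

theorem sg_one (s : S) : sg 1 s = s := by
  refine S_induction (p := fun s => sg 1 s = s) ?_ ?_ ?_ s
  · simp
  · intro s t h1 h2
    rw [map_add, h1, h2]
  · intro i
    rw [sg_single, act_one]

theorem sg_e (g : G) (x : L) : sg g (e x) = e (g x) := by
  rw [e, sg_single, act_pt, e]

theorem A_induction {p : A → Prop} (h0 : p 0) (hadd : ∀ s t, p s → p t → p (s + t))
    (h1 : ∀ m, p (single m 1)) (s : A) : p s := by
  refine MonoidAlgebra.induction_linear s h0 hadd ?_
  intro i c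
  rcases k_cases c with rfl | rfl
  · rw [single_zero]; exact h0
  · exact h1 i

/-- A criterion for linearity. -/
noncomputable def mkA {X X' : Type} [AddCommGroup X] [Module A X] [AddCommGroup X'] [Module A X']
    (t : X →+ X') (ht : ∀ m x, t ((single m 1 : A) • x) = (single m 1 : A) • t x) : X →ₗ[A] X' :=
  { t with
    map_smul' := by
      intro a x
      change t (a • x) = a • t x
      refine A_induction (p := fun a => t (a • x) = a • t x) ?_ ?_ ?_ a
      · rw [zero_smul, zero_smul, map_zero]
      · intro a b h1 h2
        rw [add_smul, add_smul, map_add, h1, h2]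
      · intro m
        exact ht m x }

theorem mkA_apply {X X' : Type} [AddCommGroup X] [Module A X] [AddCommGroup X'] [Module A X']
    (t : X →+ X') (ht : ∀ m x, t ((single m 1 : A) • x) = (single m 1 : A) • t x) (x : X) :
    mkA t ht x = t x := rfl

/-- A fixed index. -/
noncomputable def x0 : L := Classical.arbitrary L

/-- The small ring. -/
abbrev R : Type := k × S

/-- The map of the small ring to `S`. -/
noncomputable def f0 : R →+* S where
  toFun r := algebraMap k S r.1 * e x0 + r.2 * (1 - e x0)
  map_one' := by
    change algebraMap k S 1 * e x0 + 1 * (1 - e x0) = 1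
    rw [map_one]
    ring
  map_zero' := by simp
  map_add' r r' := by
    simp only [Prod.fst_add, Prod.snd_add, map_add]
    ring
  map_mul' r r' := by
    simp only [Prod.fst_mul, Prod.snd_mul, map_mul]
    linear_combination (-(algebraMap k S r.1 * algebraMap k S r'.1) +
      algebraMap k S r.1 * r'.2 + r.2 * algebraMap k S r'.1 - r.2 * r'.2) * (e_mul_e x0)

/-- The homomorphism. -/
noncomputable def ff : R →+* A := io.comp f0

theorem u_f0 (r : R) : (1 - e x0) * f0 r = (1 - e x0) * r.2 := by
  change (1 - e x0) * (algebraMap k S r.1 * e x0 + r.2 * (1 - e x0)) = _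
  linear_combination (-(algebraMap k S r.1) + r.2) * (e_mul_e x0)

theorem e_f0 (r : R) : e x0 * f0 r = algebraMap k S r.1 * e x0 := by
  change e x0 * (algebraMap k S r.1 * e x0 + r.2 * (1 - e x0)) = _
  linear_combination (algebraMap k S r.1 - r.2) * (e_mul_e x0)

end Pool.Agent.R226.RC
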