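import Pool.Agent.R226.RC.Step

set_option autoImplicit false

/-!
The extension theorem for all modules.
-/

namespace Pool.Agent.R226.RC

open Cardinal

variable {Z Y : Type} [AddCommGroup Z] [Module S Z]

open Classical in
/-- Removing the coordinates in a submodule. -/
noncomputable def filt {V : Type} [AddCommGroup V] [Module S V] (K1 : Submodule S V) :
    (V →₀ S) →ₗ[S] (V →₀ S) where
  toFun q := q.filter (fun y => y ∉ K1)
  map_add' _ _ := Finsupp.filter_add
  map_smul' _ _ := Finsupp.filter_smul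

theorem filt_apply {V : Type} [AddCommGroup V] [Module S V] (K1 : Submodule S V) (q : V →₀ S)
    (y : V) (hy : y ∈ K1) : filt K1 q y = 0 := by
  classical
  change (q.filter (fun y => y ∉ K1)) y = 0
  rw [Finsupp.filter_apply, if_neg (not_not.2 hy)]

theorem filt_apply' {V : Type} [AddCommGroup V] [Module S V] (K1 : Submodule S V) (q : V →₀ S)
    (y : V) (hy : y ∉ K1) : filt K1 q y = q y := by
  classical
  change (q.filter (fun y => y ∉ K1)) y = _
  rw [Finsupp.filter_apply, if_pos hy]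

theorem filt_sub_mem {V : Type} [AddCommGroup V] [Module S V] (K1 : Submodule S V) (q : V →₀ S) :
    Finsupp.linearCombination S id q - Finsupp.linearCombination S id (filt K1 q) ∈ K1 := by
  classical
  rw [← map_sub, Finsupp.linearCombination_apply, Finsupp.sum]
  refine Submodule.sum_mem _ fun y hy => ?_
  by_cases h : y ∈ K1
  · exact K1.smul_mem _ h
  · rw [Finsupp.mem_support_iff, Finsupp.sub_apply, filt_apply' _ _ _ h, sub_self] at hy
    exact absurd rfl hy

/-- Closed submodules. -/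
def ClSub (al : L → Z →ₗ[S] (Z →₀ S)) (W : Submodule S Z) : Prop :=
  ∀ z ∈ W, ∀ x, ∀ y ∈ (al x z).support, y ∈ W

theorem exists_small_clSub (K : Submodule S Z) (al : L → Z →ₗ[S] (Z →₀ S)) (z0 : Z) :
    ∃ W : Submodule S Z, z0 ∈ W ∧ #W ≤ #L ∧ ClSub al W := by
  classical
  let th' : Z → PP Z := fun _ => 0
  let B : Set (UU Z Z) := (Set.range (fun x : L => (il x : UU Z Z))) ∪ ({iz z0, iz 0} ∪ {ip 0})
  obtain ⟨N, hBN, hNc, hN⟩ := exists_closed_fin (#L) aleph0_le_L (phi K al th')
    (phi_countable K al th') B (by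
      refine (Cardinal.mk_union_le _ _).trans (Cardinal.add_le_of_le aleph0_le_L
        Cardinal.mk_range_le ?_)
      refine le_trans ?_ aleph0_le_L
      exact Cardinal.le_aleph0_iff_set_countable.2
        ((((Set.finite_singleton _).insert _).union (Set.finite_singleton _)).countable))
  have hclo : Clo K al th' N := clo_of_phi K al th' (hBN (Or.inr (Or.inl (Or.inr rfl))))
    (hBN (Or.inr (Or.inr rfl))) hN
  have hl : ∀ x, il x ∈ N := fun x => hBN (Or.inl ⟨x, rfl⟩)
  have hpre : Pre K th' N (fun _ => (0 : PP Z)) :=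
    ⟨fun _ _ _ _ => (add_zero 0).symm, fun _ _ _ _ => (smul_zero _).symm, fun _ _ _ => rfl⟩
  let W : Submodule S Z :=
    { carrier := {z | iz z ∈ N}
      add_mem' := fun {a b} ha hb => hclo.zadd a b ha hb
      zero_mem' := hclo.z0
      smul_mem' := fun s z hz => (hpre.lin1 hclo hz (s := s) (fun _ _ x _ => hl x)).1 }
  refine ⟨W, hBN (Or.inr (Or.inl (Or.inl rfl))), ?_, ?_⟩
  · refine le_trans (Cardinal.mk_le_of_injective (f := fun t : W => (⟨iz t.1, t.2⟩ : N)) ?_) hNc
    intro a b hab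
    apply Subtype.ext
    exact Sum.inl_injective (Sum.inr_injective (congrArg Subtype.val hab))
  · intro z hz x y hy
    exact hclo.asupp x z (hl x) hz y hy

theorem extend_one {K : Submodule S Z} {al : L → Z →ₗ[S] (Z →₀ S)}
    (kap : ∀ x z, (1 - e x) • z - Finsupp.linearCombination S id (al x z) ∈ K)
    (W : Submodule S Z) (hKW : K ≤ W) (hW : ClSub al W) (Z1 : Submodule S Z) (hZ1 : ClSub al Z1)
    (hc : #Z1 ≤ #L) (m : W →ₗ[S] PP Y) :
    ∃ g : Z1 →ₗ[S] PP Y, ∀ (x : W) (y : Z1), (x : Z) = y → m x = g y := by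
  classical
  let K1 : Submodule S Z1 := W.comap Z1.subtype
  let al1 : L → Z1 →ₗ[S] (Z1 →₀ S) := fun x =>
    (filt K1) ∘ₗ (Finsupp.lcomapDomain (R := S) (M := S) (Subtype.val : Z1 → Z)
      Subtype.val_injective) ∘ₗ (al x) ∘ₗ Z1.subtype
  let th1 : K1 →ₗ[S] PP Y := m ∘ₗ LinearMap.codRestrict W (Z1.subtype ∘ₗ K1.subtype) (fun t => t.2)
  obtain ⟨g, hg⟩ := extend_small (Y := Y) (K := K1) (al := al1) hc th1 (by
      intro x z hz
      ext1 y
      by_cases hy : y ∈ K1
      · exact filt_apply K1 _ y hy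
      · refine (filt_apply' K1 _ y hy).trans ?_
        change (al x z.1) y.1 = 0
        by_contra h0
        exact hy (hW z.1 hz x y.1 (Finsupp.mem_support_iff.2 h0))) (by
      intro x z
      let q1 : Z1 →₀ S := Finsupp.lcomapDomain (R := S) (M := S) (Subtype.val : Z1 → Z)
        Subtype.val_injective (al x z.1)
      have h1 : ((Finsupp.linearCombination S id q1 : Z1) : Z) =
          Finsupp.linearCombination S id (al x z.1) := by
        have h2 : Finsupp.mapDomain (Subtype.val : Z1 → Z) q1 = al x z.1 := by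
          change Finsupp.mapDomain (Subtype.val : Z1 → Z)
            (Finsupp.comapDomain (Subtype.val : Z1 → Z) (al x z.1) _) = _
          refine Finsupp.mapDomain_comapDomain _ Subtype.val_injective _ ?_
          intro y hy
          exact ⟨⟨y, hZ1 z.1 z.2 x y hy⟩, rfl⟩
        rw [← h2, Finsupp.linearCombination_mapDomain]
        change Z1.subtype (Finsupp.linearCombination S id q1) = _
        rw [Finsupp.linearCombination_apply, Finsupp.linearCombination_apply, map_finsuppSum]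
        rfl
      have h3 : (1 - e x) • z - Finsupp.linearCombination S id q1 ∈ K1 := by
        change ((1 - e x) • z.1 - ((Finsupp.linearCombination S id q1 : Z1) : Z)) ∈ W
        rw [h1]
        exact hKW (kap x z.1)
      have h4 := K1.add_mem h3 (filt_sub_mem K1 q1)
      rw [sub_add_sub_cancel] at h4
      exact h4)
  refine ⟨g, ?_⟩
  intro x y hxy
  have hy : y ∈ K1 := by
    change y.1 ∈ W
    rw [← hxy]
    exact x.2
  rw [hg ⟨y, hy⟩]
  change m x = m ⟨y.1, _⟩
  congr 1
  exact Subtype.ext hxy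

/-- Extension of linear maps. -/
theorem extend_free {K : Submodule S Z} {al : L → Z →ₗ[S] (Z →₀ S)} (th : K →ₗ[S] PP Y)
    (alK : ∀ x, ∀ z ∈ K, al x z = 0)
    (kap : ∀ x z, (1 - e x) • z - Finsupp.linearCombination S id (al x z) ∈ K) :
    ∃ Ps : Z →ₗ[S] PP Y, ∀ z : K, Ps z = th z := by
  classical
  let s : Set (Z →ₗ.[S] PP Y) := {f | ClSub al f.domain ∧ ∃ h : K ≤ f.domain,
    ∀ z : K, f ⟨z, h z.2⟩ = th z}
  have hK : (⟨K, th⟩ : Z →ₗ.[S] PP Y) ∈ s := by
    refine ⟨?_, le_rfl, fun z => rfl⟩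
    intro z hz x y hy
    have hz' : z ∈ K := hz
    rw [alK x z hz'] at hy
    simp at hy
  obtain ⟨m, hKm, hm⟩ := zorn_le_nonempty₀ s (by
    intro c hcs hc f0 hf0
    have hne : c.Nonempty := ⟨f0, hf0⟩
    have hdir : DirectedOn (· ≤ ·) c := hc.directedOn
    refine ⟨LinearPMap.sSup c hdir, ⟨?_, ?_, ?_⟩, fun f hf => LinearPMap.le_sSup hdir hf⟩
    · intro z hz x y hy
      obtain ⟨f, hf, hzf⟩ := (LinearPMap.mem_domain_sSup_iff hne hdir).1 hz
      exact (LinearPMap.mem_domain_sSup_iff hne hdir).2 ⟨f, hf, (hcs hf).1 z hzf x y hy⟩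
    · intro z hz
      obtain ⟨h1, h2⟩ := (hcs hf0).2
      exact (LinearPMap.mem_domain_sSup_iff hne hdir).2 ⟨f0, hf0, h1 hz⟩
    · intro z
      obtain ⟨h1, h2⟩ := (hcs hf0).2
      rw [← h2 z]
      exact ((LinearPMap.le_sSup hdir hf0).2 rfl).symm) _ hK
  have htop : m.domain = ⊤ := by
    by_contra hne
    obtain ⟨z0, hz0⟩ : ∃ z0, z0 ∉ m.domain := by
      by_contra hcon
      push Not at hcon
      exact hne (eq_top_iff.2 fun z _ => hcon z)
    obtain ⟨Z1, hz1, hc1, hcl1⟩ := exists_small_clSub K al z0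
    obtain ⟨h1, h2⟩ := hm.1.2
    obtain ⟨g, hg⟩ := extend_one (Y := Y) kap m.domain h1 hm.1.1 Z1 hcl1 hc1 m.toFun
    let m' : Z →ₗ.[S] PP Y := LinearPMap.sup m ⟨Z1, g⟩ (fun x y hxy => hg x y hxy)
    have hle : m ≤ m' := LinearPMap.left_le_sup _ _ _
    have hm' : m' ∈ s := by
      refine ⟨?_, h1.trans hle.1, ?_⟩
      · intro z hz x y hy
        have hz' : z ∈ m.domain ⊔ Z1 := hz
        obtain ⟨a, ha, b, hb, rfl⟩ := Submodule.mem_sup.1 hz'
        rw [map_add] at hy
        rcases Finset.mem_union.1 (Finsupp.support_add hy) with h | h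
        · exact (le_sup_left : m.domain ≤ m.domain ⊔ Z1) (hm.1.1 a ha x y h)
        · exact (le_sup_right : Z1 ≤ m.domain ⊔ Z1) (hcl1 b hb x y h)
      · intro z
        rw [← h2 z]
        exact (hle.2 rfl).symm
    have h5 := hm.2 hm' hle
    apply hz0
    exact h5.1 ((le_sup_right : Z1 ≤ m.domain ⊔ Z1) hz1)
  obtain ⟨h1, h2⟩ := hm.1.2
  refine ⟨m.toFun ∘ₗ (LinearMap.codRestrict m.domain LinearMap.id (fun z => by rw [htop]; trivial)), ?_⟩
  intro z
  exact h2 z

end Pool.Agent.R226.RC
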