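import Mathlib

set_option autoImplicit false

/-!
Closures of sets under operations, by W-types; the index set.
-/

namespace Pool.Agent.R226.RC

open Cardinal

/-- Closure under a family of operations. -/
theorem exists_closed {U A : Type} {B : A → Type} (op : ∀ a, (B a → U) → U) (κ : Cardinal.{0})
    (h : (Cardinal.sum fun a : A => κ ^ #(B a)) ≤ κ) :
    ∃ N : Set U, #N ≤ κ ∧ ∀ a (f : B a → U), (∀ b, f b ∈ N) → op a f ∈ N := by
  let ev : WType B → U := WType.elim U (fun x => op x.1 x.2)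
  refine ⟨Set.range ev, ?_, ?_⟩
  · refine Cardinal.mk_range_le.trans (WType.cardinalMk_le_of_le' ?_)
    simpa using h
  · intro a f hf
    choose g hg using hf
    refine ⟨WType.mk a g, ?_⟩
    have : ev (WType.mk a g) = op a (fun b => ev (g b)) := rfl
    rw [this]
    congr 1
    funext b
    exact hg b

/-- Closure under a binary operation with countable values. -/
theorem exists_closed_fin {U : Type} (κ : Cardinal.{0}) (hκ : ℵ₀ ≤ κ) (Φ : U → U → Set U)
    (hΦ : ∀ u v, (Φ u v).Countable) (B : Set U) (hB : #B ≤ κ) :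
    ∃ N : Set U, B ⊆ N ∧ #N ≤ κ ∧ ∀ u ∈ N, ∀ v ∈ N, Φ u v ⊆ N := by
  classical
  rcases isEmpty_or_nonempty U with hU | hU
  · exact ⟨∅, fun x => (hU.false x).elim, by simp, fun u => (hU.false u).elim⟩
  obtain ⟨e, he⟩ : ∃ e : U → U → ℕ → U, ∀ u v, Φ u v ⊆ Set.range (e u v) := by
    have : ∀ u v, ∃ g : ℕ → U, Φ u v ⊆ Set.range g := by
      intro u v
      rcases (Φ u v).eq_empty_or_nonempty with h0 | h0
      · exact ⟨fun _ => Classical.arbitrary U, by rw [h0]; exact Set.empty_subset _⟩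
      · obtain ⟨g, hg⟩ := (hΦ u v).exists_eq_range h0
        exact ⟨g, hg.le⟩
    choose e he using this
    exact ⟨e, he⟩
  let A := B ⊕ ℕ
  let Bt : A → Type := fun a => match a with
    | Sum.inl _ => Empty
    | Sum.inr _ => Bool
  let op : ∀ a : A, (Bt a → U) → U := fun a => match a with
    | Sum.inl b => fun _ => b.1
    | Sum.inr n => fun f => e (f false) (f true) n
  obtain ⟨N, hN, hc⟩ := exists_closed op κ (by
    refine (Cardinal.sum_le_mk_mul_iSup _).trans ?_
    have hA : #A ≤ κ := by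
      change #(B ⊕ ℕ) ≤ κ
      rw [Cardinal.mk_sum, Cardinal.lift_id, Cardinal.lift_id, Cardinal.mk_nat]
      exact Cardinal.add_le_of_le hκ hB hκ
    have hs : (⨆ a : A, κ ^ #(Bt a)) ≤ κ := by
      refine ciSup_le' ?_
      rintro (b | n)
      · change κ ^ #Empty ≤ κ
        simp only [Cardinal.mk_eq_zero, Cardinal.power_zero]
        exact (Cardinal.one_le_aleph0).trans hκ
      · change κ ^ #Bool ≤ κ
        rw [Cardinal.mk_bool, show (2 : Cardinal.{0}) = ((2 : ℕ) : Cardinal.{0}) by simp]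
        exact (Cardinal.power_nat_le hκ)
    calc #A * (⨆ a : A, κ ^ #(Bt a)) ≤ κ * κ := mul_le_mul' hA hs
      _ = κ := Cardinal.mul_eq_self hκ)
  refine ⟨N, ?_, hN, ?_⟩
  · intro b hb
    exact hc (Sum.inl ⟨b, hb⟩) (fun x => x.elim) (fun x => x.elim)
  · intro u hu v hv x hx
    obtain ⟨n, rfl⟩ := he u v hx
    refine hc (Sum.inr n) (fun b => cond b v u) ?_
    rintro (_ | _)
    · exact hu
    · exact hv

/-- Closure under a binary operation with countable values and an infinitary operation. -/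
theorem exists_closed_inf {U I : Type} (μ : Cardinal.{0}) (hμ : ℵ₀ ≤ μ) (hI : #I ≤ μ)
    (Φ : U → U → Set U) (hΦ : ∀ u v, (Φ u v).Countable) (ψ : (I → U) → U) (B : Set U)
    (hB : #B ≤ 2 ^ μ) :
    ∃ N : Set U, B ⊆ N ∧ #N ≤ 2 ^ μ ∧ (∀ u ∈ N, ∀ v ∈ N, Φ u v ⊆ N) ∧
      ∀ c : I → U, (∀ i, c i ∈ N) → ψ c ∈ N := by
  classical
  have hκ : ℵ₀ ≤ (2 : Cardinal.{0}) ^ μ := hμ.trans (Cardinal.cantor μ).le
  rcases isEmpty_or_nonempty U with hU | hU
  · refine ⟨∅, fun x => (hU.false x).elim, by simp, fun u => (hU.false u).elim, fun c => (hU.false (ψ c)).elim⟩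
  obtain ⟨e, he⟩ : ∃ e : U → U → ℕ → U, ∀ u v, Φ u v ⊆ Set.range (e u v) := by
    have : ∀ u v, ∃ g : ℕ → U, Φ u v ⊆ Set.range g := by
      intro u v
      rcases (Φ u v).eq_empty_or_nonempty with h0 | h0
      · exact ⟨fun _ => Classical.arbitrary U, by rw [h0]; exact Set.empty_subset _⟩
      · obtain ⟨g, hg⟩ := (hΦ u v).exists_eq_range h0
        exact ⟨g, hg.le⟩
    choose e he using this
    exact ⟨e, he⟩
  let A := (B ⊕ ℕ) ⊕ Unit
  let Bt : A → Type := fun a => match a with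
    | Sum.inl (Sum.inl _) => Empty
    | Sum.inl (Sum.inr _) => Bool
    | Sum.inr _ => I
  let op : ∀ a : A, (Bt a → U) → U := fun a => match a with
    | Sum.inl (Sum.inl b) => fun _ => b.1
    | Sum.inl (Sum.inr n) => fun f => e (f false) (f true) n
    | Sum.inr _ => fun f => ψ f
  obtain ⟨N, hN, hc⟩ := exists_closed op (2 ^ μ) (by
    refine (Cardinal.sum_le_mk_mul_iSup _).trans ?_
    have hA : #A ≤ 2 ^ μ := by
      change #((B ⊕ ℕ) ⊕ Unit) ≤ 2 ^ μ
      simp only [Cardinal.mk_sum, Cardinal.lift_id, Cardinal.mk_nat]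
      refine Cardinal.add_le_of_le hκ (Cardinal.add_le_of_le hκ hB hκ) ?_
      simp only [Cardinal.mk_fintype, Fintype.card_unit, Nat.cast_one]
      exact (Cardinal.one_le_aleph0).trans hκ
    have hs : (⨆ a : A, ((2 : Cardinal.{0}) ^ μ) ^ #(Bt a)) ≤ 2 ^ μ := by
      refine ciSup_le' ?_
      rintro ((b | n) | u)
      · change ((2 : Cardinal.{0}) ^ μ) ^ #Empty ≤ 2 ^ μ
        simp only [Cardinal.mk_eq_zero, Cardinal.power_zero]
        exact (Cardinal.one_le_aleph0).trans hκ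
      · change ((2 : Cardinal.{0}) ^ μ) ^ #Bool ≤ 2 ^ μ
        rw [Cardinal.mk_bool, show (((2 : Cardinal.{0}) ^ μ) ^ (2 : Cardinal.{0})) = ((2 : Cardinal.{0}) ^ μ) ^ ((2 : ℕ) : Cardinal.{0}) by simp]
        exact (Cardinal.power_nat_le hκ)
      · change ((2 : Cardinal.{0}) ^ μ) ^ #I ≤ 2 ^ μ
        rw [← Cardinal.power_mul]
        refine Cardinal.power_le_power_left two_ne_zero ?_
        calc μ * #I ≤ μ * μ := mul_le_mul' le_rfl hI
          _ = μ := Cardinal.mul_eq_self hμ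
    calc #A * (⨆ a : A, ((2 : Cardinal.{0}) ^ μ) ^ #(Bt a)) ≤ 2 ^ μ * 2 ^ μ := mul_le_mul' hA hs
      _ = 2 ^ μ := Cardinal.mul_eq_self hκ)
  refine ⟨N, ?_, hN, ?_, ?_⟩
  · intro b hb
    exact hc (Sum.inl (Sum.inl ⟨b, hb⟩)) (fun x => x.elim) (fun x => x.elim)
  · intro u hu v hv x hx
    obtain ⟨n, rfl⟩ := he u v hx
    refine hc (Sum.inl (Sum.inr n)) (fun b => cond b v u) ?_
    rintro (_ | _)
    · exact hu
    · exact hv
  · intro c hcN
    exact hc (Sum.inr ()) c hcN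

/-- Iterated power sets. -/
def T : ℕ → Type
  | 0 => ℕ
  | n + 1 => Set (T n)

/-- The index set: a strong limit of countable cofinality. -/
def L : Type := Σ n, T n

theorem mk_T_succ (n : ℕ) : #(T (n + 1)) = 2 ^ #(T n) := Cardinal.mk_set

theorem aleph0_le_T (n : ℕ) : ℵ₀ ≤ #(T n) := by
  induction n with
  | zero => exact (Cardinal.mk_nat).ge
  | succ n ih => rw [mk_T_succ]; exact ih.trans (Cardinal.cantor _).le

theorem T_lt_succ (n : ℕ) : #(T n) < #(T (n + 1)) := by
  rw [mk_T_succ]; exact Cardinal.cantor _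

theorem T_mono {m n : ℕ} (h : m ≤ n) : #(T m) ≤ #(T n) :=
  monotone_nat_of_le_succ (f := fun n => #(T n)) (fun n => (T_lt_succ n).le) h

theorem T_le_L (n : ℕ) : #(T n) ≤ #L :=
  Cardinal.mk_le_of_injective (f := fun t : T n => (⟨n, t⟩ : L)) (by
    intro a b h
    exact sigma_mk_injective h)

theorem aleph0_le_L : ℵ₀ ≤ #L := (aleph0_le_T 0).trans (T_le_L 0)

/-- Small sets. -/
def Sm {U : Type} (B : Set U) : Prop := ∃ n, #B ≤ #(T n)

theorem Sm.union {U : Type} {B C : Set U} (hB : Sm B) (hC : Sm C) : Sm (B ∪ C) := by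
  obtain ⟨m, hm⟩ := hB
  obtain ⟨n, hn⟩ := hC
  refine ⟨max m n, (Cardinal.mk_union_le _ _).trans ?_⟩
  exact Cardinal.add_le_of_le (aleph0_le_T _) (hm.trans (T_mono (le_max_left _ _)))
    (hn.trans (T_mono (le_max_right _ _)))

/-- A small set misses an index. -/
theorem Sm.exists_notMem {U : Type} {B : Set U} (hB : Sm B) (f : L → U)
    (hf : Function.Injective f) : ∃ x : L, f x ∉ B := by
  by_contra hcon
  push Not at hcon
  obtain ⟨n, hn⟩ := hB
  have h1 : #L ≤ #B := Cardinal.mk_le_of_injective (f := fun x : L => (⟨f x, hcon x⟩ : B)) (by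
    intro a b h
    exact hf (congrArg Subtype.val h))
  exact absurd ((T_le_L (n + 1)).trans (h1.trans hn)) (not_le.2 (T_lt_succ n))

/-- Exhaustion of sets of size at most `#L` by small sets. -/
theorem exists_exhaust {U : Type} (hU : #U ≤ #L) : ∃ B : ℕ → Set U, (∀ n, Sm (B n)) ∧
    ∀ x, ∃ n, x ∈ B n := by
  obtain ⟨g⟩ := Cardinal.le_def _ _ |>.1 hU
  refine ⟨fun n => {x | (g x).1 = n}, ?_, fun x => ⟨(g x).1, rfl⟩⟩
  intro n
  refine ⟨n, Cardinal.mk_le_of_injective (f := fun x : {x | (g x).1 = n} =>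
    (cast (congrArg T x.2) (g x.1).2 : T n)) ?_⟩
  rintro ⟨x, hx⟩ ⟨y, hy⟩ h
  apply Subtype.ext
  apply g.injective
  have hx' : (g x).1 = n := hx
  have hy' : (g y).1 = n := hy
  have h' : cast (congrArg T hx') (g x).2 = cast (congrArg T hy') (g y).2 := h
  refine Sigma.ext (hx'.trans hy'.symm) ?_
  have e1 : HEq (cast (congrArg T hx') (g x).2) (g x).2 := cast_heq _ _
  have e2 : HEq (cast (congrArg T hy') (g y).2) (g y).2 := cast_heq _ _
  exact e1.symm.trans ((heq_of_eq h').trans e2)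

end Pool.Agent.R226.RC
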