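import Pool.Agent.R226.RC.Mod

set_option autoImplicit false

/-!
Coinduced modules and the extension property.
-/

namespace Pool.Agent.R226.RC

open Cardinal MonoidAlgebra

section CoInd

variable {V : Type} [AddCommGroup V] [Module S V]

instance : Module S (CoInd V) := inferInstanceAs (Module S (G → V))

theorem comm_kE (x : k) (y : Mo) :
    Commute (((Module.toAddMonoidEnd S (CoInd V)).comp (algebraMap k S)) x) (opH V y) := by
  rcases k_cases x with rfl | rfl
  · rw [map_zero]; exact Commute.zero_left _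
  · rw [map_one]; exact Commute.one_left _

/-- The action of the ring. -/
noncomputable def AE (V : Type) [AddCommGroup V] [Module S V] : A →+* AddMonoid.End (CoInd V) :=
  MonoidAlgebra.liftNCRingHom ((Module.toAddMonoidEnd S (CoInd V)).comp (algebraMap k S)) (opH V)
    comm_kE

noncomputable instance : Module A (CoInd V) := Module.compHom (CoInd V) (AE V)

theorem coind_single (m : Mo) (φ : CoInd V) (h : G) :
    ((single m 1 : A) • φ : CoInd V) h = (single (act h m.d) 1 : S) • φ (h * m.g) := by
  have h1 : AE V (single m 1) = opM m := by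
    unfold AE
    rw [MonoidAlgebra.liftNCRingHom_single, map_one, one_mul]
    rfl
  change (AE V (single m 1)) φ h = _
  rw [h1]
  rfl

theorem coind_io (s : S) (φ : CoInd V) (h : G) : (io s • φ : CoInd V) h = sg h s • φ h := by
  refine S_induction (p := fun s => (io s • φ : CoInd V) h = sg h s • φ h) ?_ ?_ ?_ s
  · rw [map_zero, map_zero, zero_smul, zero_smul]; rfl
  · intro s t h1 h2
    rw [map_add, map_add, add_smul, add_smul, ← h1, ← h2]; rfl
  · intro i
    rw [io_single, coind_single, sg_single, mul_one]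

theorem coind_ga (g : G) (φ : CoInd V) (h : G) : (ga g • φ : CoInd V) h = φ (h * g) := by
  rw [ga, coind_single, act_id]
  exact one_smul S _

end CoInd

/-- The extension property. -/
def EP (V : Type) [AddCommGroup V] [Module S V] : Prop :=
  ∀ (Z : Type) [AddCommGroup Z] [Module S Z] (K : Submodule S Z) (al : L → Z →ₗ[S] (Z →₀ S)),
    (∀ x, ∀ z ∈ K, al x z = 0) →
    (∀ x z, (1 - e x) • z - Finsupp.linearCombination S id (al x z) ∈ K) →
    ∀ th : K →ₗ[S] V, ∃ Ps : Z →ₗ[S] V, ∀ z : K, Ps z = th z

theorem EP_free (Y : Type) : EP (Y →₀ S) := by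
  intro Z _ _ K al h1 h2 th
  exact extend_free th h1 h2

theorem EP_pi {V : ℕ → Type} [∀ n, AddCommGroup (V n)] [∀ n, Module S (V n)]
    (h : ∀ n, EP (V n)) : EP (∀ n, V n) := by
  intro Z _ _ K al h1 h2 th
  choose P hP using fun n => h n Z K al h1 h2 (LinearMap.proj n ∘ₗ th)
  refine ⟨LinearMap.pi P, fun z => ?_⟩
  funext n
  exact hP n z

theorem EP_prod {V W : Type} [AddCommGroup V] [Module S V] [AddCommGroup W] [Module S W]
    (h : EP V) (h' : EP W) : EP (V × W) := by
  intro Z _ _ K al h1 h2 th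
  obtain ⟨P, hP⟩ := h Z K al h1 h2 (LinearMap.fst S V W ∘ₗ th)
  obtain ⟨Q, hQ⟩ := h' Z K al h1 h2 (LinearMap.snd S V W ∘ₗ th)
  exact ⟨P.prod Q, fun z => Prod.ext (hP z) (hQ z)⟩

/-- The augmentation. -/
noncomputable def eps : S →+* k := (MonoidAlgebra.lift k k D (1 : D →* k)).toRingHom

theorem eps_single (i : D) : eps (single i 1) = 1 := by
  change (MonoidAlgebra.lift k k D (1 : D →* k)) (single i 1) = 1
  rw [MonoidAlgebra.lift_single, one_smul]
  rfl

/-- The trivial module. -/
def K0 : Type := k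

instance : AddCommGroup K0 := inferInstanceAs (AddCommGroup k)
noncomputable instance : Module S K0 := Module.compHom k eps

theorem K0_smul (s : S) (c : K0) : s • c = (show K0 from (eps s * (show k from c) : k)) := rfl

theorem eps_algebraMap (c : k) : eps (algebraMap k S c) = c := by
  rcases k_cases c with rfl | rfl
  · rw [map_zero, map_zero]
  · rw [map_one, map_one]

theorem EP_K0 : EP K0 := by
  classical
  intro Z _ _ K al h1 h2 th
  let J : Submodule S Z := Submodule.span S {w | ∃ x z, w = (1 - e x) • z}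
  have hJ : ∀ w ∈ J, ∃ i : D, (single i 1 : S) • w = 0 := by
    intro w hw
    refine Submodule.span_induction (p := fun w _ => ∃ i : D, (single i 1 : S) • w = 0)
      ?_ ?_ ?_ ?_ hw
    · rintro _ ⟨x, z, rfl⟩
      refine ⟨D.pt x, ?_⟩
      change e x • ((1 - e x) • z) = 0
      rw [← mul_smul]
      have : e x * (1 - e x) = 0 := by linear_combination -(e_mul_e x)
      rw [this, zero_smul]
    · exact ⟨1, smul_zero _⟩
    · rintro a b _ _ ⟨i, hi⟩ ⟨j, hj⟩
      refine ⟨i * j, ?_⟩
      have h3 : (single (i * j) 1 : S) = single i 1 * single j 1 := by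
        rw [single_mul_single, one_mul]
      rw [smul_add, h3]
      conv_lhs => rw [mul_comm, mul_smul, hi, smul_zero, zero_add, mul_comm, mul_smul, hj, smul_zero]
    · rintro s a _ ⟨i, hi⟩
      exact ⟨i, by rw [smul_comm, hi, smul_zero]⟩
  have hcomp : ∀ (x : (⟨K, th⟩ : Z →ₗ.[S] K0).domain) (y : (⟨J, 0⟩ : Z →ₗ.[S] K0).domain),
      (x : Z) = y → (⟨K, th⟩ : Z →ₗ.[S] K0) x = (⟨J, 0⟩ : Z →ₗ.[S] K0) y := by
    intro x y hxy
    change th x = 0
    obtain ⟨i, hi⟩ := hJ y.1 y.2
    have h3 : (single i 1 : S) • x = 0 := by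
      apply Subtype.ext
      change (single i 1 : S) • (x : Z) = 0
      rw [hxy, hi]
    have h4 : (single i 1 : S) • th x = th x := by
      rw [K0_smul, eps_single]
      exact one_mul (show k from th x)
    rw [← h4, ← map_smul, h3, map_zero]
  let f := LinearPMap.sup (⟨K, th⟩ : Z →ₗ.[S] K0) ⟨J, 0⟩ hcomp
  let _ : Module k Z := Module.compHom Z (algebraMap k S)
  let p : Submodule k Z :=
    { carrier := (f.domain : Set Z)
      add_mem' := fun ha hb => f.domain.add_mem ha hb
      zero_mem' := f.domain.zero_mem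
      smul_mem' := fun c z hz => f.domain.smul_mem (algebraMap k S c) hz }
  let F : p →ₗ[k] k :=
    { toFun := fun t => (show k from f ⟨t.1, t.2⟩)
      map_add' := fun a b => f.map_add ⟨a.1, a.2⟩ ⟨b.1, b.2⟩
      map_smul' := by
        intro c a
        have := f.map_smul (algebraMap k S c) ⟨a.1, a.2⟩
        rw [K0_smul, eps_algebraMap] at this
        exact this }
  obtain ⟨g, hg⟩ := LinearMap.exists_extend F
  have hgJ : ∀ w ∈ J, g w = 0 := by
    intro w hw
    have hw' : w ∈ f.domain := (le_sup_right : J ≤ K ⊔ J) hw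
    have h3 := LinearMap.congr_fun hg ⟨w, hw'⟩
    refine (show g w = F ⟨w, hw'⟩ from h3).trans ?_
    exact ((LinearPMap.right_le_sup (⟨K, th⟩ : Z →ₗ.[S] K0) ⟨J, 0⟩ hcomp).2
      (x := ⟨w, hw⟩) (y := ⟨w, hw'⟩) rfl).symm
  have hgK : ∀ w : K, g w = (show k from th w) := by
    intro w
    have hw' : w.1 ∈ f.domain := (le_sup_left : K ≤ K ⊔ J) w.2
    have h3 := LinearMap.congr_fun hg ⟨w.1, hw'⟩
    refine (show g w = F ⟨w.1, hw'⟩ from h3).trans ?_
    exact ((LinearPMap.left_le_sup (⟨K, th⟩ : Z →ₗ.[S] K0) ⟨J, 0⟩ hcomp).2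
      (x := w) (y := ⟨w.1, hw'⟩) rfl).symm
  have hge : ∀ x z, g (e x • z) = g z := by
    intro x z
    have h3 := hgJ ((1 - e x) • z) (Submodule.subset_span ⟨x, z, rfl⟩)
    rw [sub_smul, one_smul, map_sub] at h3
    exact (sub_eq_zero.1 h3).symm
  have hgs : ∀ (s : S) z, g (s • z) = eps s * g z := by
    intro s
    refine In_induction Set.univ (p := fun s => ∀ z, g (s • z) = eps s * g z) ?_ ?_ ?_ ?_ s
      (fun _ _ _ _ => Set.mem_univ _)
    · intro z
      rw [zero_smul, map_zero, map_zero, zero_mul]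
    · intro a b h3 h4 z
      rw [add_smul, map_add, map_add, add_mul, h3, h4]
    · intro z
      rw [one_smul, map_one, one_mul]
    · intro x _ a h3 z
      rw [mul_smul, hge, h3, map_mul]
      rw [e, eps_single, one_mul]
  let gg : Z →ₗ[S] K0 :=
    { toFun := fun z => (show K0 from g z)
      map_add' := fun a b => map_add g a b
      map_smul' := fun s z => hgs s z }
  exact ⟨gg, fun z => hgK z⟩

/-- Extension of maps to coinduced modules. -/
theorem coind_extend {V : Type} [AddCommGroup V] [Module S V] (hV : EP V) {P : Type}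
    [AddCommGroup P] [Module A P] (K : Submodule A P) (al : L → P → (P →₀ S))
    (hadd : ∀ x a b, al x (a + b) = al x a + al x b)
    (hsm : ∀ x t a, al x (io t • a) = t • al x a)
    (hK : ∀ x, ∀ z ∈ K, al x z = 0)
    (kap : ∀ x z, io (1 - e x) • z - (al x z).sum (fun y c => io c • y) ∈ K)
    (κ : K →ₗ[A] CoInd V) : ∃ Ψ : P →ₗ[A] CoInd V, ∀ z : K, Ψ z = κ z := by
  let _ : Module S P := Module.compHom P io
  have hsP : ∀ (s : S) (z : P), s • z = io s • z := fun _ _ => rfl
  let K' : Submodule S P :=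
    { carrier := (K : Set P)
      add_mem' := fun ha hb => K.add_mem ha hb
      zero_mem' := K.zero_mem
      smul_mem' := fun s z hz => K.smul_mem (io s) hz }
  let th : K' →ₗ[S] V :=
    { toFun := fun z => (κ ⟨z.1, z.2⟩) (1 : G)
      map_add' := by
        intro a b
        have h3 : κ ⟨(a + b).1, (a + b).2⟩ = κ ⟨a.1, a.2⟩ + κ ⟨b.1, b.2⟩ := by
          rw [← map_add]; rfl
        rw [h3]; rfl
      map_smul' := by
        intro s a
        have h3 : κ ⟨(s • a).1, (s • a).2⟩ = io s • κ ⟨a.1, a.2⟩ := by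
          rw [← map_smul]; rfl
        rw [h3, coind_io, sg_one]; rfl }
  obtain ⟨Th, hTh⟩ := hV P K' (fun x => { toFun := al x, map_add' := hadd x, map_smul' := hsm x })
    hK (by
      intro x z
      have := kap x z
      rw [Finsupp.linearCombination_apply]
      exact this) th
  have hT : ∀ (s : S) (z : P), Th (io s • z) = s • Th z := fun s z => Th.map_smul s z
  let T0 : P →+ CoInd V :=
    { toFun := fun z => (fun h => Th (ga h • z))
      map_zero' := by
        funext h
        change Th (ga h • (0 : P)) = 0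
        rw [smul_zero, map_zero]
      map_add' := by
        intro a b
        funext h
        change Th (ga h • (a + b)) = Th (ga h • a) + Th (ga h • b)
        rw [smul_add, map_add] }
  refine ⟨mkA T0 ?_, ?_⟩
  · intro m z
    funext h
    rw [coind_single]
    change Th (ga h • ((single m 1 : A) • z)) = (single (act h m.d) 1 : S) • Th (ga (h * m.g) • z)
    rw [← hT, ← mul_smul, ← mul_smul, io_mul_ga]
    congr 2
    rw [ga, single_mul_single, Mo.mul_def, one_mul, one_mul]
  · intro z
    rw [mkA_apply]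
    funext h
    change Th (ga h • (z : P)) = κ z h
    have h3 := hTh ⟨ga h • z.1, K.smul_mem _ z.2⟩
    refine h3.trans ?_
    change κ ⟨ga h • z.1, _⟩ (1 : G) = κ z h
    have h4 : κ ⟨ga h • z.1, K.smul_mem _ z.2⟩ = ga h • κ z := by
      rw [← map_smul]; rfl
    rw [h4, coind_ga, one_mul]

end Pool.Agent.R226.RC
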