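import Pool.Agent.R226.RC.Ring

set_option autoImplicit false

/-!
Extension of linear maps to free modules: the case of modules of size at most `#L`.
-/

namespace Pool.Agent.R226.RC

open Cardinal

variable {Z Y : Type} [AddCommGroup Z] [Module S Z]

/-- The target. -/
abbrev PP (Y : Type) : Type := Y →₀ S

open Classical in
/-- The evaluation on the free module. -/
noncomputable def evP (M : Set L) (W : Set Y) : PP Y →+ PP Y :=
  (Finsupp.mapRange.addMonoidHom (evS M).toAddMonoidHom).comp
    (Finsupp.filterAddHom (fun y => y ∈ W))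

open Classical in
theorem evP_apply (M : Set L) (W : Set Y) (q : PP Y) (y : Y) :
    evP M W q y = if y ∈ W then evS M (q y) else 0 := by
  unfold evP
  simp only [AddMonoidHom.coe_comp, Function.comp_apply, Finsupp.mapRange.addMonoidHom_apply,
    Finsupp.mapRange_apply, Finsupp.filterAddHom, AddMonoidHom.coe_mk, ZeroHom.coe_mk,
    Finsupp.filter_apply]
  split_ifs
  · rfl
  · exact map_zero _

theorem evP_e_notMem {M : Set L} (W : Set Y) {x : L} (hx : x ∉ M) (q : PP Y) :
    evP M W ((1 - e x) • q) = evP M W q := by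
  classical
  ext1 y
  rw [evP_apply, evP_apply, Finsupp.smul_apply, smul_eq_mul, map_mul, map_sub, map_one,
    evS_e_notMem hx, sub_zero, one_mul]

theorem evP_e_mem {M : Set L} (W : Set Y) {x : L} (hx : x ∈ M) (q : PP Y) :
    evP M W (e x • q) = e x • evP M W q := by
  classical
  ext1 y
  rw [evP_apply, Finsupp.smul_apply, Finsupp.smul_apply, evP_apply, smul_eq_mul, map_mul,
    evS_e_mem hx]
  split_ifs
  · rfl
  · rw [smul_zero]

theorem evP_eq {M : Set L} {W : Set Y} {q : PP Y} (h1 : ∀ y ∈ q.support, y ∈ W)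
    (h2 : ∀ y, In M (q y)) : evP M W q = q := by
  classical
  ext1 y
  rw [evP_apply, evS_of_In (h2 y)]
  split_ifs with h
  · rfl
  · by_contra h3
    exact h (h1 y (Finsupp.mem_support_iff.2 (Ne.symm h3)))

/-- The sorts. -/
abbrev UU (Z Y : Type) : Type := L ⊕ (Z ⊕ PP Y)

/-- index sort -/
abbrev il (x : L) : UU Z Y := Sum.inl x
/-- module sort -/
abbrev iz (z : Z) : UU Z Y := Sum.inr (Sum.inl z)
/-- target sort -/
abbrev ip (q : PP Y) : UU Z Y := Sum.inr (Sum.inr q)

variable (K : Submodule S Z) (al : L → Z →ₗ[S] (Z →₀ S)) (th : Z → PP Y)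

/-- Closed sets. -/
structure Clo (N : Set (UU Z Y)) : Prop where
  z0 : iz (0 : Z) ∈ N
  p0 : ip (0 : PP Y) ∈ N
  zadd : ∀ z z', iz z ∈ N → iz z' ∈ N → iz (z + z') ∈ N
  zsmul : ∀ x z, il x ∈ N → iz z ∈ N → iz (e x • z) ∈ N
  asupp : ∀ x z, il x ∈ N → iz z ∈ N → ∀ y ∈ (al x z).support, iz y ∈ N
  avar : ∀ x z, il x ∈ N → iz z ∈ N → ∀ y, In {x | il x ∈ N} (al x z y)
  tht : ∀ z, iz z ∈ N → z ∈ K → ip (th z) ∈ N
  padd : ∀ q q', ip q ∈ N → ip q' ∈ N → ip (q + q') ∈ N
  psmul : ∀ x q, il x ∈ N → ip q ∈ N → ip (e x • q) ∈ N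
  psupp : ∀ q, ip q ∈ N → ∀ y ∈ q.support, ip (Finsupp.single y 1) ∈ N
  pvar : ∀ q, ip q ∈ N → ∀ y, In {x | il x ∈ N} (q y)

/-- The variables of an element. -/
def vars (s : S) : Set L := ⋃ i ∈ s.coeff.support, {x | D.mem x i}

theorem vars_countable (s : S) : (vars s).Countable :=
  Set.Countable.biUnion (Finset.countable_toSet _) fun i _ => i.countable

open Classical in
/-- The closure operation. -/
def phi : UU Z Y → UU Z Y → Set (UU Z Y)
  | Sum.inl x, Sum.inr (Sum.inl z) => {iz (e x • z)} ∪ (fun y => iz y) '' ((al x z).support : Set Z) ∪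
      ⋃ y ∈ (al x z).support, (fun x => il x) '' vars (al x z y)
  | Sum.inl x, Sum.inr (Sum.inr q) => {ip (e x • q)}
  | Sum.inr (Sum.inl z), Sum.inr (Sum.inl z') => {iz (z + z')} ∪ (if z ∈ K then {ip (th z)} else ∅)
  | Sum.inr (Sum.inr q), Sum.inr (Sum.inr q') => {ip (q + q')} ∪
      (fun y => ip (Finsupp.single y 1)) '' (q.support : Set Y) ∪
      ⋃ y ∈ q.support, (fun x => il x) '' vars (q y)
  | _, _ => ∅

theorem phi_countable (u v : UU Z Y) : (phi K al th u v).Countable := by
  classical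
  have hf : ∀ {V : Type} (f : V →₀ S) (g : V → UU Z Y), (g '' (f.support : Set V)).Countable :=
    fun f g => (Finset.countable_toSet _).image _
  have hb : ∀ {V : Type} (f : V →₀ S),
      (⋃ y ∈ f.support, (fun x => (il x : UU Z Y)) '' vars (f y)).Countable :=
    fun f => Set.Countable.biUnion (Finset.countable_toSet _) fun y _ => (vars_countable _).image _
  rcases u with x | z | q <;> rcases v with x' | z' | q' <;> unfold phi
  · exact Set.countable_empty
  · exact ((Set.countable_singleton _).union (hf _ _)).union (hb _)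
  · exact Set.countable_singleton _
  · exact Set.countable_empty
  · refine (Set.countable_singleton _).union ?_
    split_ifs
    · exact Set.countable_singleton _
    · exact Set.countable_empty
  · exact Set.countable_empty
  · exact Set.countable_empty
  · exact Set.countable_empty
  · exact ((Set.countable_singleton _).union (hf _ _)).union (hb _)

theorem clo_of_phi {N : Set (UU Z Y)} (h0 : iz (0 : Z) ∈ N) (h0' : ip (0 : PP Y) ∈ N)
    (h : ∀ u ∈ N, ∀ v ∈ N, phi K al th u v ⊆ N) : Clo K al th N where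
  z0 := h0
  p0 := h0'
  zadd z z' hz hz' := h _ hz _ hz' (Or.inl rfl)
  zsmul x z hx hz := h _ hx _ hz (Or.inl (Or.inl rfl))
  asupp x z hx hz y hy := h _ hx _ hz (Or.inl (Or.inr ⟨y, hy, rfl⟩))
  avar x z hx hz y i hi v hv := by
    refine h _ hx _ hz (Or.inr ?_)
    have hy : y ∈ (al x z).support := by
      rw [Finsupp.mem_support_iff]
      intro h1
      rw [h1] at hi
      simp at hi
    exact Set.mem_biUnion hy ⟨v, Set.mem_biUnion hi hv, rfl⟩
  tht z hz hK := by
    classical
    refine h _ hz _ hz (Or.inr ?_)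
    rw [if_pos hK]
    rfl
  padd q q' hq hq' := h _ hq _ hq' (Or.inl (Or.inl rfl))
  psmul x q hx hq := h _ hx _ hq rfl
  psupp q hq y hy := h _ hq _ hq (Or.inl (Or.inr ⟨y, hy, rfl⟩))
  pvar q hq y i hi v hv := by
    refine h _ hq _ hq (Or.inr ?_)
    have hy : y ∈ q.support := by
      rw [Finsupp.mem_support_iff]
      intro h1
      rw [h1] at hi
      simp at hi
    exact Set.mem_biUnion hy ⟨v, Set.mem_biUnion hi hv, rfl⟩

variable {K al th}

/-- the index part -/
abbrev NL (N : Set (UU Z Y)) : Set L := {x | il x ∈ N}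
/-- the basis part -/
abbrev NY (N : Set (UU Z Y)) : Set Y := {y | ip (Finsupp.single y 1) ∈ N}

theorem Clo.ev_eq {N : Set (UU Z Y)} (hN : Clo K al th N) {q : PP Y} (hq : ip q ∈ N) :
    evP (NL N) (NY N) q = q :=
  evP_eq (fun y hy => hN.psupp q hq y hy) (fun y => hN.pvar q hq y)

theorem Clo.single_mem {N : Set (UU Z Y)} (hN : Clo K al th N) {y : Y} (hy : y ∈ NY N) {s : S}
    (hs : In (NL N) s) : ip (Finsupp.single y s) ∈ N := by
  refine In_induction (NL N) (p := fun s => ip (Finsupp.single y s) ∈ N) ?_ ?_ hy ?_ s hs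
  · simpa using hN.p0
  · intro s t h1 h2
    have := hN.padd _ _ h1 h2
    rw [← Finsupp.single_add] at this
    exact this
  · intro x hx s h1
    have := hN.psmul x _ hx h1
    rw [Finsupp.smul_single, smul_eq_mul] at this
    exact this

theorem Clo.ev_mem {N : Set (UU Z Y)} (hN : Clo K al th N) (q : PP Y) :
    ip (evP (NL N) (NY N) q) ∈ N := by
  classical
  rw [← Finsupp.sum_single (evP (NL N) (NY N) q)]
  refine Finset.sum_induction _ (fun q => (ip q : UU Z Y) ∈ N) hN.padd hN.p0 ?_
  intro y hy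
  rw [evP_apply]
  split_ifs with h
  · exact hN.single_mem h (In_evS _ _)
  · rw [Finsupp.mem_support_iff, evP_apply, if_neg h] at hy
    exact absurd rfl hy

/-- Partial linear maps. -/
structure Pre (K : Submodule S Z) (th : Z → PP Y) (N : Set (UU Z Y)) (Th : Z → PP Y) : Prop where
  add : ∀ z z', iz z ∈ N → iz z' ∈ N → Th (z + z') = Th z + Th z'
  smul : ∀ x z, il x ∈ N → iz z ∈ N → Th (e x • z) = e x • Th z
  res : ∀ z, iz z ∈ N → z ∈ K → Th z = th z

/-- Extendability at an index. -/
def ExtAt (K : Submodule S Z) (th : Z → PP Y) (N : Set (UU Z Y)) (Th : Z → PP Y) (x : L) : Prop :=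
  ∃ Ps : Z →ₗ[S] PP Y, (∀ z ∈ K, Ps z = (1 - e x) • th z) ∧
    ∀ z, iz z ∈ N → Ps z = (1 - e x) • Th z

theorem Pre.lin1 {N : Set (UU Z Y)} (hN : Clo K al th N) {Th : Z → PP Y} (h : Pre K th N Th)
    {z : Z} (hz : iz z ∈ N) {s : S} (hs : In (NL N) s) :
    iz (s • z) ∈ N ∧ Th (s • z) = s • Th z := by
  have h00 : Th 0 = 0 := by
    have := h.add 0 0 hN.z0 hN.z0
    rw [add_zero] at this
    exact left_eq_add.1 this
  refine In_induction (NL N) (p := fun s => iz (s • z) ∈ N ∧ Th (s • z) = s • Th z) ?_ ?_ ?_ ?_ s hs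
  · rw [zero_smul, zero_smul]; exact ⟨hN.z0, h00⟩
  · intro s t h1 h2
    rw [add_smul, add_smul]
    exact ⟨hN.zadd _ _ h1.1 h2.1, by rw [h.add _ _ h1.1 h2.1, h1.2, h2.2]⟩
  · rw [one_smul, one_smul]; exact ⟨hz, rfl⟩
  · intro x hx s h1
    rw [mul_smul, mul_smul]
    exact ⟨hN.zsmul _ _ hx h1.1, by rw [h.smul _ _ hx h1.1, h1.2]⟩

theorem Pre.lin2 {N : Set (UU Z Y)} (hN : Clo K al th N) {Th : Z → PP Y} (h : Pre K th N Th)
    (q : Z →₀ S) (h1 : ∀ y ∈ q.support, iz y ∈ N) (h2 : ∀ y, In (NL N) (q y)) :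
    iz (Finsupp.linearCombination S id q) ∈ N ∧
      Th (Finsupp.linearCombination S id q) = ∑ y ∈ q.support, q y • Th y := by
  classical
  have h00 : Th 0 = 0 := by
    have := h.add 0 0 hN.z0 hN.z0
    rw [add_zero] at this
    exact left_eq_add.1 this
  rw [Finsupp.linearCombination_apply, Finsupp.sum]
  have : ∀ t : Finset Z, t ⊆ q.support → iz (∑ y ∈ t, q y • y) ∈ N ∧
      Th (∑ y ∈ t, q y • y) = ∑ y ∈ t, q y • Th y := by
    intro t
    induction t using Finset.induction_on with
    | empty => intro _; rw [Finset.sum_empty, Finset.sum_empty]; exact ⟨hN.z0, h00⟩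
    | insert a t ha ih =>
      intro ht
      have h3 := ih ((Finset.subset_insert _ _).trans ht)
      have h4 := h.lin1 hN (h1 a (ht (Finset.mem_insert_self _ _))) (h2 a)
      rw [Finset.sum_insert ha, Finset.sum_insert ha]
      exact ⟨hN.zadd _ _ h4.1 h3.1, by rw [h.add _ _ h4.1 h3.1, h4.2, h3.2]⟩
  exact this _ (Finset.Subset.refl _)

/-- The standing hypotheses. -/
structure Hyp (K : Submodule S Z) (al : L → Z →ₗ[S] (Z →₀ S)) (th : K →ₗ[S] PP Y)
    (th' : Z → PP Y) : Prop where
  alK : ∀ x, ∀ z ∈ K, al x z = 0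
  kap : ∀ x z, (1 - e x) • z - Finsupp.linearCombination S id (al x z) ∈ K
  ext : ∀ z : K, th' z = th z

/-- The map `κ`. -/
noncomputable def kapL {th : K →ₗ[S] PP Y} {th' : Z → PP Y} (H : Hyp K al th th') (x : L) :
    Z →ₗ[S] K :=
  LinearMap.codRestrict K ((1 - e x) • LinearMap.id -
    (Finsupp.linearCombination S id) ∘ₗ (al x)) (fun z => H.kap x z)

theorem local_ext {th : K →ₗ[S] PP Y} {th' : Z → PP Y} (H : Hyp K al th th')
    {N : Set (UU Z Y)} (hN : Clo K al th' N) {Th : Z → PP Y} (h : Pre K th' N Th) {x : L}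
    (hx : il x ∈ N) : ExtAt K th' N Th x := by
  classical
  let Ps1 : (Z →₀ S) →ₗ[S] PP Y :=
    Finsupp.linearCombination S (fun y => if iz y ∈ N then Th y else 0)
  refine ⟨th ∘ₗ kapL H x + Ps1 ∘ₗ al x, ?_, ?_⟩
  · intro z hz
    rw [LinearMap.add_apply, LinearMap.comp_apply, LinearMap.comp_apply, H.alK x z hz, map_zero,
      add_zero]
    have : kapL H x z = (1 - e x) • (⟨z, hz⟩ : K) := by
      apply Subtype.ext
      change (1 - e x) • z - Finsupp.linearCombination S id (al x z) = (1 - e x) • z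
      rw [H.alK x z hz, map_zero, sub_zero]
    rw [this, map_smul, ← H.ext]
  · intro z hz
    have h1 := h.lin2 hN (al x z) (hN.asupp x z hx hz) (hN.avar x z hx hz)
    have hIn : In (NL N) (1 - e x) := by
      have h3 : (1 : S) - e x = 1 + e x := by
        rw [sub_eq_add_neg]
        congr 1
        have : e x + e x = 0 := by
          have h5 : (2 : k) = 0 := by decide
          rw [← two_smul k (e x), h5, zero_smul]
        exact (eq_neg_of_add_eq_zero_left this).symm
      rw [h3]
      refine In_add ?_ ?_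
      · intro i hi v hv
        rw [MonoidAlgebra.one_def, MonoidAlgebra.coeff_single] at hi
        have := Finset.mem_singleton.1 (Finsupp.support_single_subset hi)
        rw [this] at hv
        exact (D.not_mem_one v hv).elim
      · intro i hi v hv
        rw [e, MonoidAlgebra.coeff_single] at hi
        have := Finset.mem_singleton.1 (Finsupp.support_single_subset hi)
        rw [this, D.mem_pt] at hv
        rw [hv]
        exact hx
    have h2 := h.lin1 hN hz hIn
    have hneg : ∀ z : Z, -z = z := by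
      intro z
      have h5 : (1 : S) + 1 = 0 := by
        rw [← two_smul k (1 : S), show (2 : k) = 0 by decide, zero_smul]
      have : z + z = 0 := by
        have h6 : z + z = ((1 : S) + 1) • z := by rw [add_smul, one_smul]
        rw [h6, h5, zero_smul]
      exact neg_eq_of_add_eq_zero_left this
    have h3 : iz ((kapL H x z : K) : Z) ∈ N := by
      change iz ((1 - e x) • z - Finsupp.linearCombination S id (al x z)) ∈ N
      rw [sub_eq_add_neg, hneg]
      exact hN.zadd _ _ h2.1 h1.1
    rw [LinearMap.add_apply, LinearMap.comp_apply, LinearMap.comp_apply]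
    have h4 : th (kapL H x z) = Th (kapL H x z : K) := by
      rw [← H.ext, h.res _ h3 (kapL H x z).2]
    have h5 : Ps1 (al x z) = Th (Finsupp.linearCombination S id (al x z)) := by
      rw [h1.2, Finsupp.linearCombination_apply, Finsupp.sum]
      refine Finset.sum_congr rfl fun y hy => ?_
      rw [if_pos (hN.asupp x z hx hz y hy)]
    rw [h4, h5, ← h.add _ _ h3 h1.1, ← h2.2]
    congr 1
    change ((1 - e x) • z - Finsupp.linearCombination S id (al x z)) +
      Finsupp.linearCombination S id (al x z) = _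
    rw [sub_add_cancel]

end Pool.Agent.R226.RC
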