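import Pool.Agent.R226.RC.Res
import Pool.Agent.R924.K3

set_option autoImplicit false

/-!
The complex is a counterexample.
-/

namespace Pool.Agent.R226.RC

open Cardinal MonoidAlgebra CategoryTheory Abelian

theorem sum_single_lift {M : Type} [AddCommGroup M] [Module A M] (q : M →₀ S) :
    Finsupp.linearCombination A (id : M → M)
      ((q.mapDomain (fun y => (Finsupp.single y 1 : M →₀ A))).sum (fun y c => io c • y)) =
      q.sum (fun y c => io c • y) := by
  classical
  rw [Finsupp.sum_mapDomain_index (fun y => by rw [map_zero, zero_smul])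
    (fun y c c' => by rw [map_add, add_smul]), map_finsuppSum]
  refine Finsupp.sum_congr fun y _ => ?_
  rw [map_smul, Finsupp.linearCombination_single, one_smul]
  rfl

/-- The coinduced module is relatively cotorsion, even without flatness. -/
theorem relcot (M : ModuleCat.{0} A)
    (hM : Module.Projective R ((ModuleCat.restrictScalars ff).obj M))
    (E : Ext M (ModuleCat.of A (CoInd CC)) 1) : E = 0 := by
  classical
  obtain ⟨s, hs⟩ := Module.projective_def'.1 hM
  obtain ⟨j0, h1, h2, h3⟩ := loc0 (X := M) (fun a => s a) (fun a b => s.map_add' a b)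
    (fun r a => s.map_smul' r a) (fun a => by
      have := LinearMap.congr_fun hs a
      rw [LinearMap.comp_apply, Finsupp.linearCombination_apply] at this
      exact this)
  choose j j1 j2 j3 using fun x => loc h1 h2 h3 x
  let π : (M →₀ A) →ₗ[A] M := Finsupp.linearCombination A id
  have hπ : Function.Surjective π := fun m => ⟨Finsupp.single m 1, by
    change Finsupp.linearCombination A id (Finsupp.single m 1) = m
    rw [Finsupp.linearCombination_single, one_smul]; rfl⟩
  let K : Submodule A (M →₀ A) := LinearMap.ker π
  have hex : Function.Exact K.subtype π := by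
    intro x
    constructor
    · intro hx
      exact ⟨⟨x, hx⟩, rfl⟩
    · rintro ⟨y, rfl⟩
      exact y.2
  have hinj : Function.Injective K.subtype := K.subtype_injective
  refine Pool.Agent.R924.Fla.ext_of_extend (X := K) (Y := M →₀ A) (Z := M) (f := K.subtype)
    (g := π) hex hinj hπ (ModuleCat.of A (CoInd CC)) inferInstance ?_ E
  intro κ
  obtain ⟨Ψ, hΨ⟩ := coind_extend EP_CC K
    (fun x z => (j x (π z)).mapDomain (fun y => (Finsupp.single y 1 : M →₀ A)))
    (fun x a b => by
      rw [map_add, j1, Finsupp.mapDomain_add])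
    (fun x t a => by
      rw [map_smul, j2, Finsupp.mapDomain_smul])
    (fun x z hz => by
      have h4 : π z = 0 := hz
      have h5 : j x 0 = 0 := by
        have := j1 x 0 0
        rw [add_zero] at this
        exact left_eq_add.1 this
      rw [h4, h5, Finsupp.mapDomain_zero])
    (fun x z => by
      change π _ = 0
      rw [map_sub, map_smul]
      change io (1 - e x) • π z - Finsupp.linearCombination A (id : M → M) _ = 0
      rw [sum_single_lift, j3, sub_self]) κ
  refine ⟨Ψ, ?_⟩
  refine LinearMap.ext fun z => ?_
  exact hΨ z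

theorem coeff_e_mul (x : L) (i : D) (hx : ¬ D.mem x i) (s : S) : (e x * s).coeff i = 0 := by
  classical
  refine S_induction (p := fun s => (e x * s).coeff i = 0) ?_ ?_ ?_ s
  · simp
  · intro a b h1 h2
    rw [mul_add, MonoidAlgebra.coeff_add, Finsupp.add_apply, h1, h2, add_zero]
  · intro d
    rw [e, single_mul_single, MonoidAlgebra.coeff_single, Finsupp.single_apply, if_neg]
    intro h
    apply hx
    rw [← h, D.mem_mul, D.mem_pt]
    exact Or.inl rfl

theorem fixed_zero {Y : Type} (q : Y →₀ S) (hq : ∀ x, e x • q = q) : q = 0 := by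
  ext1 y
  apply MonoidAlgebra.coeff_injective
  ext1 i
  obtain ⟨x, hx⟩ := D.exists_not_mem i
  have h1 := congrArg (fun q : Y →₀ S => (q y).coeff i) (hq x)
  simp only [Finsupp.smul_apply, smul_eq_mul] at h1
  rw [← h1, coeff_e_mul x i hx]
  rfl

/-- The augmentation of the group algebra. -/
noncomputable def epG : kG →+* k := (MonoidAlgebra.lift k k G (1 : G →* k)).toRingHom

theorem epG_single (g : G) : epG (single g 1) = 1 := by
  change (MonoidAlgebra.lift k k G (1 : G →* k)) (single g 1) = 1
  rw [MonoidAlgebra.lift_single, one_smul]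
  rfl

/-- The map which does not lift. -/
noncomputable def eta : FF →ₗ[A] CoInd CC :=
  mkA { toFun := fun x => (fun _ => ((0 : ∀ n, (VV n →₀ S)), (show K0 from epG x)))
        map_zero' := by
          funext h
          exact Prod.ext rfl (map_zero epG)
        map_add' := by
          intro x y
          funext h
          exact Prod.ext (add_zero _).symm (map_add epG _ _) } (by
    intro m x
    funext h
    rw [coind_single]
    refine Prod.ext (smul_zero _).symm ?_
    change epG (qr (single m 1) * (show kG from x)) = eps (single (act h m.d) 1) * epG x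
    rw [qr_single, map_mul, epG_single, eps_single])

theorem eta_apply (x : FF) (h : G) :
    eta x h = ((0 : ∀ n, (VV n →₀ S)), (show K0 from epG x)) := rfl

theorem not_relcot :
    ¬ ∀ E : Ext (ModuleCat.of A FF) (ModuleCat.of A (LinearMap.ker dA)) 1, E = 0 := by
  intro hE
  have hker : ∀ φ, dA φ ∈ LinearMap.ker dA := fun φ => LinearMap.mem_ker.2 ((dA_exact _).2 ⟨φ, rfl⟩)
  let g : CoInd CC →ₗ[A] LinearMap.ker dA := LinearMap.codRestrict _ dA hker
  have hg : Function.Surjective g := by
    intro w
    obtain ⟨b, hb⟩ := (dA_exact w.1).1 (LinearMap.mem_ker.1 w.2)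
    exact ⟨b, Subtype.ext hb⟩
  have hex : Function.Exact (LinearMap.ker dA).subtype g := by
    intro x
    constructor
    · intro hx
      exact ⟨⟨x, LinearMap.mem_ker.2 (congrArg Subtype.val hx)⟩, rfl⟩
    · rintro ⟨y, rfl⟩
      exact Subtype.ext (LinearMap.mem_ker.1 y.2)
  have heta : ∀ x, eta x ∈ LinearMap.ker dA := by
    intro x
    rw [LinearMap.mem_ker]
    funext h
    rw [dA_apply, eta_apply]
    refine Prod.ext ?_ ?_
    · funext n
      rw [dl_fst]
      change inc n (pv (n + 1) 0) = 0
      rw [map_zero, map_zero]
    · rw [dl_snd]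
      exact map_zero pv0
  obtain ⟨ψ, hψ⟩ := Pool.Agent.R924.Fla.lift_of_ext hex (Submodule.subtype_injective _) hg hE
    (LinearMap.codRestrict _ eta heta)
  let one : FF := (show FF from (1 : kG))
  have h1 : dA (ψ one) = eta one := congrArg Subtype.val (LinearMap.congr_fun hψ one)
  have h2 : ∀ x, io (e x) • ψ one = ψ one := by
    intro x
    rw [← map_smul]
    congr 1
    rw [FF_smul, e, qr_io, one_mul]
  have h3 : ∀ x, e x • (ψ one (1 : G)) = ψ one (1 : G) := by
    intro x
    have := congrFun (h2 x) (1 : G)
    rw [coind_io, sg_one] at this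
    exact this
  have h4 : (ψ one (1 : G)).1 0 = 0 := by
    apply fixed_zero
    intro x
    exact congrFun (congrArg Prod.fst (h3 x)) 0
  have h5 := congrArg Prod.snd (congrFun h1 (1 : G))
  rw [dA_apply, dl_snd, h4, eta_apply, map_zero] at h5
  have h6 : epG (1 : kG) = 1 := map_one epG
  have h7 : (0 : k) = epG (1 : kG) := h5
  rw [h6] at h7
  exact absurd h7 (by decide)

end Pool.Agent.R226.RC
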