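import Pool.Agent.R226.RC.Alg

set_option autoImplicit false

/-!
Modules over the big ring.
-/

namespace Pool.Agent.R226.RC

open Cardinal MonoidAlgebra

section Local

variable {X : Type} [AddCommGroup X] [Module A X]

theorem loc0 (s : X → (X →₀ R)) (hadd : ∀ a b, s (a + b) = s a + s b)
    (hsm : ∀ r a, s (ff r • a) = r • s a) (hs : ∀ a, (s a).sum (fun y r => ff r • y) = a) :
    ∃ j : X → (X →₀ S), (∀ a b, j (a + b) = j a + j b) ∧ (∀ t a, j (io t • a) = t • j a) ∧
      ∀ a, (j a).sum (fun y c => io c • y) = io (1 - e x0) • a := by
  refine ⟨fun a => (s a).mapRange (fun r => (1 - e x0) * r.2) (by simp), ?_, ?_, ?_⟩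
  · intro a b
    ext1 y
    simp only [hadd, Finsupp.mapRange_apply, Finsupp.add_apply, Prod.snd_add, mul_add]
  · intro t a
    have h1 : ff (0, 1) • (io t • a) = ff (0, t) • a := by
      change io (f0 (0, 1)) • (io t • a) = io (f0 (0, t)) • a
      rw [← mul_smul, ← map_mul]
      congr 2
      change (algebraMap k S 0 * e x0 + 1 * (1 - e x0)) * t =
        algebraMap k S 0 * e x0 + t * (1 - e x0)
      rw [map_zero]
      ring
    have h2 := congrArg s h1
    rw [hsm, hsm] at h2
    ext1 y
    have h3 := congrArg Prod.snd (DFunLike.congr_fun h2 y)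
    have h4 : (s (io t • a) y).2 = t * (s a y).2 := by
      have e1 : ((((0, 1) : R) • s (io t • a)) y).2 = 1 * (s (io t • a) y).2 := rfl
      have e2 : ((((0, t) : R) • s a) y).2 = t * (s a y).2 := rfl
      rw [e1, e2, one_mul] at h3
      exact h3
    simp only [Finsupp.mapRange_apply, Finsupp.smul_apply, smul_eq_mul, h4]
    ring
  · intro a
    rw [Finsupp.sum_mapRange_index (fun y => by rw [map_zero, zero_smul])]
    conv_rhs => rw [← hs a, Finsupp.smul_sum]
    refine Finsupp.sum_congr fun y _ => ?_
    change io ((1 - e x0) * (s a y).2) • y = io (1 - e x0) • (io (f0 (s a y)) • y)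
    rw [← mul_smul, ← map_mul, u_f0]

theorem loc {j0 : X → (X →₀ S)} (hadd : ∀ a b, j0 (a + b) = j0 a + j0 b)
    (hsm : ∀ t a, j0 (io t • a) = t • j0 a)
    (hs : ∀ a, (j0 a).sum (fun y c => io c • y) = io (1 - e x0) • a) (x : L) :
    ∃ j : X → (X →₀ S), (∀ a b, j (a + b) = j a + j b) ∧ (∀ t a, j (io t • a) = t • j a) ∧
      ∀ a, (j a).sum (fun y c => io c • y) = io (1 - e x) • a := by
  classical
  let g : G := Equiv.swap x0 x
  have hg : g x0 = x := Equiv.swap_apply_left _ _
  refine ⟨fun a => ((j0 (ga g⁻¹ • a)).mapRange (sg g) (map_zero _)).mapDomain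
    (fun y => ga g • y), ?_, ?_, ?_⟩
  · intro a b
    simp only []
    rw [smul_add, hadd, Finsupp.mapRange_add (fun _ _ => map_add _ _ _), Finsupp.mapDomain_add]
  · intro t a
    simp only []
    have h1 : ga g⁻¹ • (io t • a) = io (sg g⁻¹ t) • (ga g⁻¹ • a) := by
      rw [← mul_smul, ga_mul_io, mul_smul]
    rw [h1, hsm, ← Finsupp.mapDomain_smul]
    congr 1
    ext1 y
    simp only [Finsupp.mapRange_apply, Finsupp.smul_apply, smul_eq_mul, map_mul, sg_sg,
      mul_inv_cancel, sg_one]
  · intro a
    simp only []
    rw [Finsupp.sum_mapDomain_index (fun y => by rw [map_zero, zero_smul])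
      (fun y c c' => by rw [map_add, add_smul]),
      Finsupp.sum_mapRange_index (fun y => by rw [map_zero, zero_smul])]
    have h1 : ∀ (y : X) (c : S), io (sg g c) • ga g • y = ga g • (io c • y) := by
      intro y c
      rw [← mul_smul, ← ga_mul_io, mul_smul]
    simp only [h1]
    rw [← Finsupp.smul_sum, hs, ← mul_smul, ← mul_smul, ga_mul_io, mul_assoc, ga_mul,
      mul_inv_cancel, ga_one, mul_one, map_sub, map_one, sg_e, hg]

end Local

theorem io_algebraMap (c : k) : io (algebraMap k S c) = algebraMap k A c := by
  rcases k_cases c with rfl | rfl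
  · rw [map_zero, map_zero, map_zero]
  · rw [map_one, map_one, map_one]

theorem lc1 {Y P : Type} [AddCommGroup P] [Module R P] (u : Y → P) (w : Y →₀ S) :
    Finsupp.linearCombination R u (w.mapRange (fun c => ((0, c) : R)) rfl) =
      w.sum (fun y c => ((0, c) : R) • u y) := by
  rw [Finsupp.linearCombination_apply, Finsupp.sum_mapRange_index]
  intro y
  exact zero_smul R _

theorem lc2 {Y P : Type} [AddCommGroup P] [Module R P] (u : Y → P) (w : Y →₀ k) :
    Finsupp.linearCombination R u (w.mapRange (fun c => ((c, 0) : R)) rfl) =
      w.sum (fun y c => ((c, 0) : R) • u y) := by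
  rw [Finsupp.linearCombination_apply, Finsupp.sum_mapRange_index]
  intro y
  exact zero_smul R _

/-- A criterion for projectivity over the small ring. -/
theorem proj_of {X Y : Type} [AddCommGroup X] [Module A X] (j : X → (Y →₀ S))
    (hadd : ∀ a b, j (a + b) = j a + j b) (hsm : ∀ t a, j (io t • a) = t • j a)
    (hz : ∀ a, e x0 • j a = 0) (be : Y → X)
    (hb : ∀ a, (j a).sum (fun y c => io c • be y) = io (1 - e x0) • a) :
    Module.Projective R ((ModuleCat.restrictScalars ff).obj (ModuleCat.of A X)) := by
  classical
  let P : Type := (ModuleCat.restrictScalars ff).obj (ModuleCat.of A X)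
  letI : Module k X := Module.compHom X (algebraMap k A)
  have hk : ∀ (c : k) (a : X), c • a = algebraMap k A c • a := fun c a => rfl
  let b := Module.Basis.ofVectorSpace k X
  have hP : ∀ (r : R) (a : P), r • a = (show P from (ff r • (show X from a))) := fun r a => rfl
  let i : P →ₗ[R] (Y →₀ R) × ((Module.Basis.ofVectorSpaceIndex k X) →₀ R) :=
    { toFun := fun a => ((j a).mapRange (fun c => ((0, c) : R)) rfl,
        (b.repr (io (e x0) • (show X from a))).mapRange (fun c => ((c, 0) : R)) rfl)
      map_add' := by
        intro a a'
        refine Prod.ext ?_ ?_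
        · ext1 y
          change (((0 : k), (j (show X from a + a')) y) : R) = ((0, j a y) : R) + ((0, j a' y) : R)
          have : j (show X from a + a') = j a + j a' := hadd _ _
          rw [this]
          simp
        · ext1 y
          change (((b.repr (io (e x0) • ((show X from a) + (show X from a')))) y, (0 : S)) : R) =
            (((b.repr (io (e x0) • (show X from a))) y, 0) : R) +
              ((b.repr (io (e x0) • (show X from a')) y, 0) : R)
          rw [smul_add, map_add]
          simp
      map_smul' := by
        intro r a
        refine Prod.ext ?_ ?_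
        · ext1 y
          change (((0 : k), (j (ff r • (show X from a))) y) : R) = r * ((0, j a y) : R)
          have h1 : j (ff r • (show X from a)) = f0 r • j a := hsm (f0 r) a
          have h2 : f0 r • j a = r.2 • j a := by
            have h3 : (1 - e x0) • j a = j a := by rw [sub_smul, one_smul, hz, sub_zero]
            rw [← h3, ← mul_smul, ← mul_smul, mul_comm, u_f0, mul_comm]
          rw [h1, h2]
          refine Prod.ext ?_ ?_
          · change (0 : k) = r.1 * 0
            rw [mul_zero]
          · rfl
        · ext1 y
          change (((b.repr (io (e x0) • (ff r • (show X from a)))) y, (0 : S)) : R) =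
            r * (((b.repr (io (e x0) • (show X from a))) y, 0) : R)
          have h1 : io (e x0) • (ff r • (show X from a)) = r.1 • (io (e x0) • (show X from a)) := by
            change io (e x0) • (io (f0 r) • (show X from a)) = _
            rw [hk, ← mul_smul, ← map_mul, e_f0, map_mul, io_algebraMap, mul_smul]
          rw [h1, map_smul]
          refine Prod.ext ?_ ?_
          · rfl
          · change (0 : S) = r.2 * 0
            rw [mul_zero] }
  let s : (Y →₀ R) × ((Module.Basis.ofVectorSpaceIndex k X) →₀ R) →ₗ[R] P :=
    LinearMap.coprod (Finsupp.linearCombination R (fun y => (show P from be y)))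
      (Finsupp.linearCombination R (fun y => (show P from b y)))
  refine Module.Projective.of_split i s ?_
  refine LinearMap.ext fun a => ?_
  change (Finsupp.linearCombination R (fun y => (show P from be y)))
      ((j a).mapRange (fun c => ((0, c) : R)) rfl) +
    (Finsupp.linearCombination R (fun y => (show P from b y)))
      ((b.repr (io (e x0) • (show X from a))).mapRange (fun c => ((c, 0) : R)) rfl) = a
  have h1 : (j a).sum (fun y c => (((0, c) : R) • (show P from be y))) =
      (show P from (io (1 - e x0) • (show X from a))) := by
    have h2 : ∀ y (c : S), (((0, c) : R) • (show P from be y)) =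
        (show P from (io (1 - e x0) • (io c • be y))) := by
      intro y c
      change io (f0 (0, c)) • be y = _
      rw [← mul_smul, ← map_mul]
      congr 2
      change algebraMap k S 0 * e x0 + c * (1 - e x0) = _
      rw [map_zero]
      ring
    simp only [h2]
    have h3 := congrArg (fun v => io (1 - e x0) • v) (hb a)
    simp only [Finsupp.smul_sum] at h3
    refine h3.trans ?_
    change io (1 - e x0) • (io (1 - e x0) • (show X from a)) = _
    rw [← mul_smul, ← map_mul]
    congr 2
    linear_combination e_mul_e x0
  have h4 : (b.repr (io (e x0) • (show X from a))).sum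
      (fun y c => (((c, 0) : R) • (show P from b y))) =
      (show P from (io (e x0) • (show X from a))) := by
    have h2 : ∀ y (c : k), (((c, 0) : R) • (show P from b y)) =
        (show P from (io (e x0) • (c • b y))) := by
      intro y c
      change io (f0 (c, 0)) • b y = _
      rw [hk, ← io_algebraMap, ← mul_smul, ← map_mul]
      congr 2
      change algebraMap k S c * e x0 + 0 * (1 - e x0) = _
      ring
    simp only [h2]
    have h5 : (b.repr (io (e x0) • (show X from a))).sum (fun y c => c • b y) =
        io (e x0) • (show X from a) := b.linearCombination_repr _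
    have h3 := congrArg (fun v => io (e x0) • v) h5
    simp only [Finsupp.smul_sum] at h3
    refine h3.trans ?_
    change io (e x0) • (io (e x0) • (show X from a)) = _
    rw [← mul_smul, ← map_mul, e_mul_e]
  refine (congrArg₂ (· + ·) ((lc1 _ _).trans h1) ((lc2 _ _).trans h4)).trans ?_
  change io (1 - e x0) • (show X from a) + io (e x0) • (show X from a) = a
  rw [← add_smul, ← map_add, sub_add_cancel, map_one]
  exact one_smul A (show X from a)

/-- Coinduced modules. -/
def CoInd (V : Type) : Type := G → V

instance (V : Type) [AddCommGroup V] : AddCommGroup (CoInd V) :=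
  inferInstanceAs (AddCommGroup (G → V))

section CoInd

variable {V : Type} [AddCommGroup V] [Module S V]

/-- The action of the monoid. -/
noncomputable def opM (m : Mo) : AddMonoid.End (CoInd V) where
  toFun φ := fun h => (single (act h m.d) 1 : S) • φ (h * m.g)
  map_zero' := by
    funext h
    exact smul_zero _
  map_add' φ ψ := by
    funext h
    exact smul_add _ _ _

/-- The action of the monoid. -/
noncomputable def opH (V : Type) [AddCommGroup V] [Module S V] : Mo →* AddMonoid.End (CoInd V) where
  toFun := opM
  map_one' := by
    refine AddMonoidHom.ext fun φ => ?_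
    funext h
    change (single (act h 1) 1 : S) • φ (h * 1) = φ h
    rw [act_id, mul_one]
    exact one_smul S _
  map_mul' m m' := by
    refine AddMonoidHom.ext fun φ => ?_
    funext h
    change (single (act h (m.d * act m.g m'.d)) 1 : S) • φ (h * (m.g * m'.g)) =
      (single (act h m.d) 1 : S) • ((single (act (h * m.g) m'.d) 1 : S) • φ (h * m.g * m'.g))
    rw [← mul_smul, single_mul_single, act_mul, act_act, one_mul, mul_assoc]


end CoInd

end Pool.Agent.R226.RC
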