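import Pool.Agent.R226.RC.Co

set_option autoImplicit false

/-!
The periodic complex, and the flat module.
-/

namespace Pool.Agent.R226.RC

open Cardinal MonoidAlgebra

/-- The iterated kernels of free covers, starting with the trivial module. -/
noncomputable def VV : ℕ → ModuleCat.{0} S
  | 0 => ModuleCat.of S K0
  | n + 1 => ModuleCat.of S (LinearMap.ker (Finsupp.linearCombination S (id : VV n → VV n)))

/-- The free cover. -/
noncomputable def pv (n : ℕ) : (VV n →₀ S) →ₗ[S] VV n := Finsupp.linearCombination S id

theorem pv_single (n : ℕ) (v : VV n) : pv n (Finsupp.single v 1) = v := by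
  unfold pv
  rw [Finsupp.linearCombination_single, one_smul]
  rfl

/-- The inclusion of the kernel. -/
noncomputable def inc (n : ℕ) : VV (n + 1) →ₗ[S] (VV n →₀ S) :=
  (LinearMap.ker (Finsupp.linearCombination S (id : VV n → VV n))).subtype

theorem inc_injective (n : ℕ) : Function.Injective (inc n) := Subtype.val_injective

theorem pv_inc (n : ℕ) (v : VV (n + 1)) : pv n (inc n v) = 0 := by
  have h : (v : LinearMap.ker (Finsupp.linearCombination S (id : VV n → VV n))).1 ∈
    LinearMap.ker (Finsupp.linearCombination S (id : VV n → VV n)) := Subtype.property _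
  exact LinearMap.mem_ker.1 h

theorem exists_inc (n : ℕ) (q : VV n →₀ S) (hq : pv n q = 0) : ∃ v, inc n v = q :=
  ⟨(⟨q, LinearMap.mem_ker.2 hq⟩ :
    LinearMap.ker (Finsupp.linearCombination S (id : VV n → VV n))), rfl⟩

/-- The term of the complex over `S`. -/
abbrev CC : Type := (∀ n, (VV n →₀ S)) × K0

/-- The first cover. -/
noncomputable def pv0 : (VV 0 →₀ S) →ₗ[S] K0 := pv 0

/-- The differential over `S`. -/
noncomputable def dl : CC →ₗ[S] CC :=
  LinearMap.prod
    (LinearMap.pi fun n => inc n ∘ₗ pv (n + 1) ∘ₗ LinearMap.proj (n + 1) ∘ₗ LinearMap.fst S _ _)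
    (pv0 ∘ₗ LinearMap.proj 0 ∘ₗ LinearMap.fst S _ _)

theorem dl_fst (c : CC) (n : ℕ) : (dl c).1 n = inc n (pv (n + 1) (c.1 (n + 1))) := rfl
theorem dl_snd (c : CC) : (dl c).2 = pv0 (c.1 0) := rfl

theorem dl_exact : Function.Exact dl dl := by
  intro c
  constructor
  · intro hc
    have h1 : ∀ n, pv n (c.1 n) = 0 := by
      intro n
      cases n with
      | zero =>
        have := congrArg Prod.snd hc
        rw [dl_snd] at this
        exact this
      | succ n =>
        have := congrFun (congrArg Prod.fst hc) n
        rw [dl_fst] at this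
        exact inc_injective n (this.trans (map_zero (inc n)).symm)
    choose v hv using fun n => exists_inc n (c.1 n) (h1 n)
    refine ⟨(fun n => match n with
      | 0 => Finsupp.single (show VV 0 from c.2) 1
      | n + 1 => Finsupp.single (v n) 1, 0), ?_⟩
    refine Prod.ext ?_ ?_
    · funext n
      rw [dl_fst]
      change inc n (pv (n + 1) (Finsupp.single (v n) 1)) = c.1 n
      rw [pv_single, hv]
    · rw [dl_snd]
      exact pv_single 0 (show VV 0 from c.2)
  · rintro ⟨b, rfl⟩
    refine Prod.ext ?_ ?_
    · funext n
      rw [dl_fst, dl_fst, pv_inc, map_zero]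
      rfl
    · rw [dl_snd, dl_fst]
      exact pv_inc 0 _

theorem EP_CC : EP CC := EP_prod (EP_pi fun n => EP_free _) EP_K0

/-- The differential over the big ring. -/
noncomputable def dA : CoInd CC →ₗ[A] CoInd CC :=
  mkA { toFun := fun φ => (fun h => dl (φ h))
        map_zero' := by
          funext h
          exact map_zero dl
        map_add' := by
          intro φ ψ
          funext h
          exact map_add dl _ _ } (by
    intro m φ
    funext h
    rw [coind_single]
    change dl (((single m 1 : A) • φ : CoInd CC) h) = _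
    rw [coind_single, map_smul]
    rfl)

theorem dA_apply (φ : CoInd CC) (h : G) : dA φ h = dl (φ h) := rfl

theorem dA_exact : Function.Exact dA dA := by
  intro φ
  constructor
  · intro hφ
    have h1 : ∀ h, ∃ b, dl b = φ h := by
      intro h
      apply (dl_exact (φ h)).1
      exact congrFun hφ h
    choose b hb using h1
    exact ⟨b, funext hb⟩
  · rintro ⟨b, rfl⟩
    funext h
    exact (dl_exact _).2 ⟨b h, rfl⟩

/-- The projection to the group. -/
def prG : Mo →* G where
  toFun m := m.g
  map_one' := rfl
  map_mul' _ _ := rfl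

/-- The section of the projection. -/
noncomputable def seG : G →* Mo where
  toFun g := ⟨1, g⟩
  map_one' := rfl
  map_mul' g h := by
    rw [Mo.mul_def, act_id, one_mul]

/-- The group algebra. -/
abbrev kG : Type := MonoidAlgebra k G

/-- The projection to the group algebra. -/
noncomputable def qr : A →+* kG := mapDomainRingHom k prG

/-- The section. -/
noncomputable def se : kG →+* A := mapDomainRingHom k seG

theorem qr_single (m : Mo) (c : k) : qr (single m c) = single m.g c := by
  change MonoidAlgebra.mapDomain prG (single m c) = _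
  rw [MonoidAlgebra.mapDomain_single]
  rfl

theorem se_single (g : G) (c : k) : se (single g c) = single ⟨1, g⟩ c := by
  change MonoidAlgebra.mapDomain seG (single g c) = _
  rw [MonoidAlgebra.mapDomain_single]
  rfl

theorem qr_se (x : kG) : qr (se x) = x := by
  refine MonoidAlgebra.induction_linear x (by simp) ?_ ?_
  · intro a b h1 h2
    rw [map_add, map_add, h1, h2]
  · intro g c
    rw [se_single, qr_single]

theorem qr_io (i : D) : qr (io (single i 1)) = 1 := by
  rw [io_single, qr_single]
  rfl

/-- The flat module. -/
def FF : Type := kG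

noncomputable instance : AddCommGroup FF := inferInstanceAs (AddCommGroup kG)
noncomputable instance : Module kG FF := inferInstanceAs (Module kG kG)
noncomputable instance : Module A FF := Module.compHom FF qr

theorem FF_smul (a : A) (x : FF) : a • x = (show FF from (qr a * (show kG from x) : kG)) := rfl

theorem D.mul_self (d : D) : d * d = d := D.ext' fun x => by rw [D.mem_mul, or_self]

theorem exists_kill (b : A) : ∃ i : D, ∀ j : D,
    b * io (single (i * j) 1) = se (qr b) * io (single (i * j) 1) := by
  refine A_induction (p := fun b => ∃ i : D, ∀ j : D,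
    b * io (single (i * j) 1) = se (qr b) * io (single (i * j) 1)) ?_ ?_ ?_ b
  · exact ⟨1, fun j => by simp⟩
  · rintro a b ⟨i, hi⟩ ⟨i', hi'⟩
    refine ⟨i * i', fun j => ?_⟩
    have h1 := hi (i' * j)
    have h2 := hi' (i * j)
    rw [← mul_assoc] at h1 h2
    rw [mul_comm i' i] at h2
    rw [add_mul, h1, h2, map_add, map_add, add_mul]
  · intro m
    refine ⟨act m.g⁻¹ m.d, fun j => ?_⟩
    rw [qr_single, se_single, io_single, single_mul_single, single_mul_single]
    congr 1
    refine Mo.ext ?_ rfl
    change m.d * act m.g (act m.g⁻¹ m.d * j) = 1 * act m.g (act m.g⁻¹ m.d * j)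
    rw [act_mul, act_act, mul_inv_cancel, act_one, one_mul, ← mul_assoc, D.mul_self]

theorem FF_flat (n : ℕ) (r : Fin n → A) (x : Fin n → FF) (h : ∑ i, r i • x i = 0) :
    ∃ (m : ℕ) (a : Fin n → Fin m → A) (y : Fin m → FF),
      (∀ i, x i = ∑ j, a i j • y j) ∧ ∀ j, ∑ i, r i * a i j = 0 := by
  let b : A := ∑ i, r i * se (x i)
  have hb : qr b = 0 := by
    have h1 : qr b = ∑ i, qr (r i) * (show kG from x i) := by
      change qr (∑ i, r i * se (x i)) = _
      rw [map_sum]
      refine Finset.sum_congr rfl fun i _ => ?_
      rw [map_mul, qr_se]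
    rw [h1]
    exact h
  obtain ⟨i0, hi0⟩ := exists_kill b
  have h2 := hi0 1
  rw [hb, map_zero, zero_mul] at h2
  refine ⟨1, fun i _ => se (x i) * io (single (i0 * 1) 1), fun _ => (show FF from (1 : kG)), ?_, ?_⟩
  · intro i
    rw [Fin.sum_univ_one, FF_smul, map_mul, qr_se, qr_io, mul_one]
    exact (mul_one (show kG from x i)).symm
  · intro _
    have : ∑ i, r i * (se (x i) * io (single (i0 * 1) 1)) = b * io (single (i0 * 1) 1) := by
      change _ = (∑ i, r i * se (x i)) * _
      rw [Finset.sum_mul]
      exact Finset.sum_congr rfl fun i _ => (mul_assoc _ _ _).symm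
    rw [this, h2]

theorem FF_proj :
    Module.Projective R ((ModuleCat.restrictScalars ff).obj (ModuleCat.of A FF)) := by
  refine proj_of (Y := Empty) (fun _ => 0) (fun _ _ => (add_zero 0).symm)
    (fun _ _ => (smul_zero _).symm) (fun _ => smul_zero _) (fun y => y.elim) ?_
  intro a
  rw [Finsupp.sum_zero_index]
  have h1 : io (1 - e x0) • a = (0 : FF) := by
    rw [FF_smul, map_sub, map_sub, map_one, map_one, e, qr_io, sub_self, zero_mul]
    rfl
  exact h1.symm

/-- The coordinates of the big ring over `S`. -/
noncomputable def dec : A →+ (G →₀ S) :=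
  (Finsupp.liftAddHom (fun m : Mo =>
    (Finsupp.singleAddHom m.g).comp
      { toFun := fun c : k => (single m.d c : S)
        map_zero' := single_zero _
        map_add' := fun a b => single_add _ _ _ })).comp
    { toFun := fun a : A => a.coeff
      map_zero' := rfl
      map_add' := fun _ _ => rfl }

theorem dec_single (m : Mo) (c : k) :
    dec (single m c) = Finsupp.single m.g (single m.d c : S) := by
  unfold dec
  simp only [AddMonoidHom.coe_comp, Function.comp_apply, AddMonoidHom.coe_mk, ZeroHom.coe_mk,
    MonoidAlgebra.coeff_single]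
  rw [Finsupp.liftAddHom_apply_single]
  rfl

theorem dec_io (t : S) (a : A) : dec (io t * a) = t • dec a := by
  refine A_induction (p := fun a => dec (io t * a) = t • dec a) ?_ ?_ ?_ a
  · rw [mul_zero, map_zero, smul_zero]
  · intro a b h1 h2
    rw [mul_add, map_add, map_add, smul_add, h1, h2]
  · intro m
    refine S_induction (p := fun t => dec (io t * single m 1) = t • dec (single m 1)) ?_ ?_ ?_ t
    · rw [map_zero, zero_mul, map_zero, zero_smul]
    · intro a b h1 h2
      rw [map_add, add_mul, map_add, add_smul, h1, h2]
    · intro i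
      rw [io_single, single_mul_single, dec_single, dec_single, Finsupp.smul_single, smul_eq_mul,
        single_mul_single]
      change Finsupp.single (1 * m.g) (single (i * act 1 m.d) _) = _
      rw [act_one, one_mul]

theorem dec_sum (a : A) : (dec a).sum (fun g c => io c * ga g) = a := by
  refine A_induction (p := fun a => (dec a).sum (fun g c => io c * ga g) = a) ?_ ?_ ?_ a
  · rw [map_zero, Finsupp.sum_zero_index]
  · intro a b h1 h2
    rw [map_add, Finsupp.sum_add_index' (fun g => by rw [map_zero, zero_mul])
      (fun g c c' => by rw [map_add, add_mul]), h1, h2]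
  · intro m
    rw [dec_single, Finsupp.sum_single_index (by rw [map_zero, zero_mul]), io_mul_ga]

theorem A_proj :
    Module.Projective R ((ModuleCat.restrictScalars ff).obj (ModuleCat.of A A)) := by
  refine proj_of (Y := G) (fun a => (1 - e x0) • dec a) ?_ ?_ ?_ ga ?_
  · intro a b
    rw [map_add, smul_add]
  · intro t a
    rw [smul_eq_mul, dec_io, smul_comm]
  · intro a
    rw [← mul_smul]
    have : e x0 * (1 - e x0) = 0 := by linear_combination -(e_mul_e x0)
    rw [this, zero_smul]
  · intro a
    rw [Finsupp.sum_smul_index' (fun g => by rw [map_zero, zero_smul])]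
    have h1 : ∀ (g : G) (c : S), io ((1 - e x0) • c) • ga g = io (1 - e x0) • (io c * ga g) := by
      intro g c
      rw [smul_eq_mul, smul_eq_mul, smul_eq_mul, map_mul, mul_assoc]
    simp only [h1]
    rw [← Finsupp.smul_sum, dec_sum]

end Pool.Agent.R226.RC
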