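import Pool.Agent.R226.RC.Cl

set_option autoImplicit false

/-!
The semilattice algebra of the finite subsets of `L` over the field with two elements.
-/

namespace Pool.Agent.R226.RC

open Cardinal

/-- The field with two elements. -/
abbrev k : Type := ZMod 2

/-- Finite subsets of the index set. -/
@[ext] structure D : Type where
  /-- the underlying finite set -/
  s : Finset L

noncomputable instance : DecidableEq L := Classical.decEq L

/-- The union of finite subsets as a multiplication. -/
noncomputable instance : CommMonoid D where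
  mul i j := ⟨i.s ∪ j.s⟩
  one := ⟨∅⟩
  mul_assoc i j l := D.ext (Finset.union_assoc _ _ _)
  one_mul i := D.ext (Finset.empty_union _)
  mul_one i := D.ext (Finset.union_empty _)
  mul_comm i j := D.ext (Finset.union_comm _ _)

/-- membership -/
def D.mem (x : L) (i : D) : Prop := x ∈ i.s

theorem D.mem_mul (x : L) (i j : D) : D.mem x (i * j) ↔ D.mem x i ∨ D.mem x j := by
  change x ∈ i.s ∪ j.s ↔ _
  exact Finset.mem_union

theorem D.not_mem_one (x : L) : ¬ D.mem x (1 : D) := by
  change x ∉ (∅ : Finset L)
  exact Finset.notMem_empty x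

theorem D.ext' {i j : D} (h : ∀ x, D.mem x i ↔ D.mem x j) : i = j := D.ext (Finset.ext h)

/-- one element sets -/
def D.pt (x : L) : D := ⟨{x}⟩

theorem D.mem_pt (x y : L) : D.mem x (D.pt y) ↔ x = y := Finset.mem_singleton

theorem D.countable (i : D) : {x | D.mem x i}.Countable := Finset.countable_toSet i.s

theorem D.exists_not_mem (i : D) : ∃ x, ¬ D.mem x i := by
  have : Infinite L := Cardinal.infinite_iff.2 aleph0_le_L
  exact Infinite.exists_notMem_finset i.s

theorem D.induction {p : D → Prop} (h1 : p 1) (h : ∀ x i, p i → p (D.pt x * i)) (i : D) : p i := by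
  have : ∀ i : Finset L, p ⟨i⟩ := by
    intro i
    induction i using Finset.induction_on with
    | empty => exact h1
    | insert a s ha ih =>
      have h2 := h a ⟨s⟩ ih
      have h3 : (D.pt a * ⟨s⟩) = (⟨insert a s⟩ : D) := by
        apply D.ext'
        intro x
        rw [D.mem_mul, D.mem_pt]
        exact (Finset.mem_insert).symm
      rw [h3] at h2
      exact h2
  exact this i.s

/-- induction with a constraint -/
theorem D.induction_in (M : Set L) {p : D → Prop} (h1 : p 1)
    (h : ∀ x ∈ M, ∀ i, p i → p (D.pt x * i)) (i : D) (hi : ∀ x, D.mem x i → x ∈ M) : p i := by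
  revert hi
  refine D.induction (p := fun i => (∀ x, D.mem x i → x ∈ M) → p i) (fun _ => h1) ?_ i
  intro x i ih hi
  exact h x (hi x ((D.mem_mul _ _ _).2 (Or.inl ((D.mem_pt _ _).2 rfl)))) i
    (ih fun y hy => hi y ((D.mem_mul _ _ _).2 (Or.inr hy)))

/-- The ring. -/
abbrev S : Type := MonoidAlgebra k D

open MonoidAlgebra

/-- The idempotents. -/
noncomputable def e (x : L) : S := single (D.pt x) 1

/-- The elements with variables in `M`. -/
def In (M : Set L) (s : S) : Prop := ∀ i ∈ s.coeff.support, ∀ x, D.mem x i → x ∈ M

theorem k_cases (c : k) : c = 0 ∨ c = 1 := by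
  revert c
  decide

theorem S_induction {p : S → Prop} (h0 : p 0) (hadd : ∀ s t, p s → p t → p (s + t))
    (h1 : ∀ i, p (single i 1)) (s : S) : p s := by
  refine MonoidAlgebra.induction_linear s h0 hadd ?_
  intro i c
  rcases k_cases c with rfl | rfl
  · rw [single_zero]; exact h0
  · exact h1 i

theorem In_induction (M : Set L) {p : S → Prop} (h0 : p 0) (hadd : ∀ s t, p s → p t → p (s + t))
    (h1 : p 1) (hmul : ∀ x ∈ M, ∀ s, p s → p (e x * s)) (s : S) (hs : In M s) : p s := by
  have hi : ∀ i : D, (∀ x, D.mem x i → x ∈ M) → p (single i 1) := by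
    intro i hi
    refine D.induction_in M (p := fun i => p (single i 1)) ?_ ?_ i hi
    · exact h1
    · intro x hx i ih
      have := hmul x hx _ ih
      rw [e, single_mul_single, one_mul] at this
      exact this
  have hsum : s = ∑ i ∈ s.coeff.support, single i (s.coeff i) := by
    apply MonoidAlgebra.coeff_injective
    rw [MonoidAlgebra.coeff_sum]
    conv_lhs => rw [← Finsupp.sum_single s.coeff]
    rfl
  rw [hsum]
  refine Finset.sum_induction _ p hadd h0 ?_
  intro i his
  rcases k_cases (s.coeff i) with h | h
  · exact absurd h (Finsupp.mem_support_iff.1 his)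
  · rw [h]
    exact hi i (hs i his)

open Classical in
/-- The evaluation, as a monoid homomorphism. -/
noncomputable def evD (M : Set L) : D →* S where
  toFun i := if (∀ x, D.mem x i → x ∈ M) then single i 1 else 0
  map_one' := by
    rw [if_pos (fun x hx => (D.not_mem_one x hx).elim)]
    rfl
  map_mul' i j := by
    by_cases hi : ∀ x, D.mem x i → x ∈ M
    · by_cases hj : ∀ x, D.mem x j → x ∈ M
      · rw [if_pos hi, if_pos hj, if_pos, single_mul_single, one_mul]
        intro x hx
        rcases (D.mem_mul _ _ _).1 hx with h | h
        · exact hi x h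
        · exact hj x h
      · rw [if_neg hj, mul_zero, if_neg]
        intro h
        exact hj fun x hx => h x ((D.mem_mul _ _ _).2 (Or.inr hx))
    · rw [if_neg hi, zero_mul, if_neg]
      intro h
      exact hi fun x hx => h x ((D.mem_mul _ _ _).2 (Or.inl hx))

/-- The evaluation. -/
noncomputable def evS (M : Set L) : S →+* S := (MonoidAlgebra.lift k S D (evD M)).toRingHom

theorem evS_single (M : Set L) (i : D) : evS M (single i 1) = evD M i := by
  change (MonoidAlgebra.lift k S D (evD M)) (single i 1) = _
  rw [MonoidAlgebra.lift_single, one_smul]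

theorem evS_e_notMem {M : Set L} {x : L} (hx : x ∉ M) : evS M (e x) = 0 := by
  rw [e, evS_single]
  classical
  unfold evD
  simp only [MonoidHom.coe_mk, OneHom.coe_mk]
  rw [if_neg]
  intro h
  exact hx (h x ((D.mem_pt _ _).2 rfl))

theorem evS_e_mem {M : Set L} {x : L} (hx : x ∈ M) : evS M (e x) = e x := by
  rw [e, evS_single]
  classical
  unfold evD
  simp only [MonoidHom.coe_mk, OneHom.coe_mk]
  rw [if_pos]
  intro y hy
  rw [(D.mem_pt _ _).1 hy]
  exact hx

theorem evS_of_In {M : Set L} {s : S} (hs : In M s) : evS M s = s := by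
  refine In_induction M (p := fun s => evS M s = s) (map_zero _) ?_ (map_one _) ?_ s hs
  · intro s t h1 h2
    rw [map_add, h1, h2]
  · intro x hx s h1
    rw [map_mul, h1, evS_e_mem hx]

theorem In_zero (M : Set L) : In M 0 := by
  intro i hi
  simp at hi

theorem In_add {M : Set L} {s t : S} (hs : In M s) (ht : In M t) : In M (s + t) := by
  classical
  intro i hi
  rw [MonoidAlgebra.coeff_add] at hi
  rcases Finset.mem_union.1 (Finsupp.support_add hi) with h | h
  · exact hs i h
  · exact ht i h

theorem In_evS (M : Set L) (s : S) : In M (evS M s) := by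
  refine S_induction (p := fun s => In M (evS M s)) ?_ ?_ ?_ s
  · rw [map_zero]; exact In_zero M
  · intro s t h1 h2
    rw [map_add]; exact In_add h1 h2
  · intro i
    rw [evS_single]
    classical
    unfold evD
    simp only [MonoidHom.coe_mk, OneHom.coe_mk]
    split_ifs with h
    · intro j hj x hx
      rw [MonoidAlgebra.coeff_single] at hj
      have : j = i := by
        have := Finsupp.support_single_subset hj
        exact Finset.mem_singleton.1 this
      rw [this] at hx
      exact h x hx
    · exact In_zero M

theorem e_mul_e (x : L) : e x * e x = e x := by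
  rw [e, single_mul_single, one_mul]
  congr 1
  apply D.ext'
  intro y
  rw [D.mem_mul, or_self]

end Pool.Agent.R226.RC
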