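import Pool.Agent.R226.RC.Core

set_option autoImplicit false

/-!
The induction step and the extension theorem for modules of size at most `#L`.
-/

namespace Pool.Agent.R226.RC

open Cardinal

variable {Z Y : Type} [AddCommGroup Z] [Module S Z]
variable {K : Submodule S Z} {al : L → Z →ₗ[S] (Z →₀ S)}

/-- Good partial maps. -/
structure Good (K : Submodule S Z) (al : L → Z →ₗ[S] (Z →₀ S)) (th' : Z → PP Y)
    (N : Set (UU Z Y)) (Th : Z → PP Y) : Prop where
  clo : Clo K al th' N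
  pre : Pre K th' N Th
  ext : ∀ x, ExtAt K th' N Th x
  small : Sm N

theorem Sm.mono {U : Type} {A B : Set U} (h : A ⊆ B) (hB : Sm B) : Sm A := by
  obtain ⟨n, hn⟩ := hB
  exact ⟨n, (Cardinal.mk_le_mk_of_subset h).trans hn⟩

theorem Sm.image {U V : Type} {A : Set U} (f : U → V) (hA : Sm A) : Sm (f '' A) := by
  obtain ⟨n, hn⟩ := hA
  exact ⟨n, Cardinal.mk_image_le.trans hn⟩

theorem Sm.pair {U : Type} (a b : U) : Sm ({a, b} : Set U) := by
  refine ⟨0, ?_⟩
  have : (({a, b} : Set U)).Countable := (Set.finite_singleton b).insert a |>.countable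
  exact (Cardinal.le_aleph0_iff_set_countable.2 this).trans (aleph0_le_T 0)

instance : Nonempty L := ⟨⟨0, (show ℕ from 0)⟩⟩

/-- projection to the target sort -/
noncomputable def pr : UU Z Y → PP Y
  | Sum.inr (Sum.inr q) => q
  | _ => 0

theorem step {th : K →ₗ[S] PP Y} {th' : Z → PP Y} (H : Hyp K al th th')
    {N : Set (UU Z Y)} {Th : Z → PP Y} (h : Good K al th' N Th) (B : Set (UU Z Y)) (hB : Sm B) :
    ∃ N' : Set (UU Z Y), ∃ Th' : Z → PP Y, Good K al th' N' Th' ∧ N ⊆ N' ∧ B ⊆ N' ∧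
      ∀ z, iz z ∈ N → Th' z = Th z := by
  classical
  let B1 : Set (UU Z Y) := ((N ∪ B) ∪ (fun u => ip (Th (match u with
    | Sum.inr (Sum.inl z) => z
    | _ => 0))) '' N) ∪ {iz 0, ip 0}
  have hB1 : Sm B1 := ((h.small.union hB).union (h.small.image _)).union (Sm.pair _ _)
  obtain ⟨n, hn⟩ := hB1
  obtain ⟨N', hBN', hN'c, hN'⟩ := exists_closed_fin (#(T n)) (aleph0_le_T n) (phi K al th')
    (phi_countable K al th') B1 hn
  have hclo' : Clo K al th' N' := clo_of_phi K al th' (hBN' (Or.inr (Or.inl rfl)))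
    (hBN' (Or.inr (Or.inr rfl))) hN'
  have hNN' : N ⊆ N' := fun u hu => hBN' (Or.inl (Or.inl (Or.inl hu)))
  have hBB' : B ⊆ N' := fun u hu => hBN' (Or.inl (Or.inl (Or.inr hu)))
  have hTh' : ∀ z, iz z ∈ N → ip (Th z) ∈ N' := fun z hz =>
    hBN' (Or.inl (Or.inr ⟨iz z, hz, rfl⟩))
  by_contra hcon
  let Valid : (Z → PP Y) → Prop := fun τ => Pre K th' N' τ ∧ ∀ z, iz z ∈ N → τ z = Th z
  have hbad : ∀ τ, Valid τ → ∃ x, ¬ ExtAt K th' N' τ x := by
    intro τ hτ
    by_contra h2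
    push Not at h2
    exact hcon ⟨N', τ, ⟨hclo', hτ.1, h2, n, hN'c⟩, hNN', hBB', hτ.2⟩
  choose! bad hbad using hbad
  let I : Type := {z : Z // iz z ∈ N'}
  let mkτ : (I → UU Z Y) → Z → PP Y := fun c z =>
    if hz : iz z ∈ N' then pr (c ⟨z, hz⟩) else 0
  have hI : #I ≤ #(T n) := by
    refine le_trans ?_ hN'c
    exact Cardinal.mk_le_of_injective (f := fun t : I => (⟨iz t.1, t.2⟩ : N')) (by
      intro a b hab
      have h3 := congrArg Subtype.val hab
      apply Subtype.ext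
      exact Sum.inl_injective (Sum.inr_injective h3))
  obtain ⟨N2, hN2, hN2c, hN2a, hN2b⟩ := exists_closed_inf (#(T n)) (aleph0_le_T n) hI
    (phi K al th') (phi_countable K al th') (fun c => il (bad (mkτ c))) N'
    (hN'c.trans (Cardinal.cantor _).le)
  have hclo2 : Clo K al th' N2 := clo_of_phi K al th' (hN2 hclo'.z0) (hN2 hclo'.p0) hN2a
  have hsm2 : Sm N2 := ⟨n + 1, by rw [mk_T_succ]; exact hN2c⟩
  obtain ⟨x1, hx1⟩ := hsm2.exists_notMem (fun x : L => (il x : UU Z Y)) Sum.inl_injective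
  obtain ⟨Ps, hPs1, hPs2⟩ := h.ext x1
  let Th2 : Z → PP Y := fun z => evP (NL N2) (NY N2) (Ps z)
  have hx1' : x1 ∉ NL N2 := hx1
  have hTh2N : ∀ z, iz z ∈ N → Th2 z = Th z := by
    intro z hz
    change evP (NL N2) (NY N2) (Ps z) = Th z
    rw [hPs2 z hz, evP_e_notMem _ hx1', hclo2.ev_eq (hN2 (hTh' z hz))]
  have hpre2 : Pre K th' N2 Th2 := by
    refine ⟨?_, ?_, ?_⟩
    · intro z z' _ _
      change evP _ _ (Ps (z + z')) = evP _ _ (Ps z) + evP _ _ (Ps z')
      rw [map_add, map_add]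
    · intro x z hx _
      change evP _ _ (Ps (e x • z)) = e x • evP _ _ (Ps z)
      rw [map_smul, evP_e_mem _ hx]
    · intro z hz hK
      change evP _ _ (Ps z) = th' z
      rw [hPs1 z hK, evP_e_notMem _ hx1', hclo2.ev_eq (hclo2.tht z hz hK)]
  let c : I → UU Z Y := fun t => ip (Th2 t.1)
  have hc : ∀ t, c t ∈ N2 := fun t => hclo2.ev_mem _
  have hτ : ∀ z, iz z ∈ N' → mkτ c z = Th2 z := by
    intro z hz
    change (if hz : iz z ∈ N' then pr (c ⟨z, hz⟩) else 0) = _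
    rw [dif_pos hz]
    rfl
  have hval : Valid (mkτ c) := by
    refine ⟨⟨?_, ?_, ?_⟩, ?_⟩
    · intro z z' hz hz'
      rw [hτ _ hz, hτ _ hz', hτ _ (hclo'.zadd _ _ hz hz'), hpre2.add _ _ (hN2 hz) (hN2 hz')]
    · intro x z hx hz
      rw [hτ _ hz, hτ _ (hclo'.zsmul _ _ hx hz), hpre2.smul _ _ (hN2 hx) (hN2 hz)]
    · intro z hz hK
      rw [hτ _ hz, hpre2.res _ (hN2 hz) hK]
    · intro z hz
      rw [hτ _ (hNN' hz), hTh2N z hz]
  have h4 := hN2b c hc
  obtain ⟨Q, hQ1, hQ2⟩ := local_ext H hclo2 hpre2 h4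
  refine hbad _ hval ⟨Q, hQ1, ?_⟩
  intro z hz
  rw [hQ2 z (hN2 hz), hτ z hz]

/-- Extension of linear maps, small case. -/
theorem extend_small (hZ : #Z ≤ #L) (th : K →ₗ[S] PP Y)
    (alK : ∀ x, ∀ z ∈ K, al x z = 0)
    (kap : ∀ x z, (1 - e x) • z - Finsupp.linearCombination S id (al x z) ∈ K) :
    ∃ Ps : Z →ₗ[S] PP Y, ∀ z : K, Ps z = th z := by
  classical
  let th' : Z → PP Y := fun z => if hz : z ∈ K then th ⟨z, hz⟩ else 0
  have H : Hyp K al th th' := ⟨alK, kap, fun z => dif_pos z.2⟩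
  have h00 : th' 0 = 0 := by
    change (if hz : (0 : Z) ∈ K then th ⟨0, hz⟩ else 0) = 0
    rw [dif_pos K.zero_mem]
    exact map_zero th
  let N0 : Set (UU Z Y) := {iz 0, ip 0}
  have hN0z : ∀ z : Z, iz z ∈ N0 → z = 0 := by
    rintro z (hz | hz)
    · exact Sum.inl_injective (Sum.inr_injective hz)
    · simp at hz
  have hN0p : ∀ q : PP Y, ip q ∈ N0 → q = 0 := by
    rintro q (hq | hq)
    · simp at hq
    · exact Sum.inr_injective (Sum.inr_injective hq)
  have hN0l : ∀ x : L, il x ∉ N0 := by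
    rintro x (hx | hx) <;> simp at hx
  have g0 : Good K al th' N0 (fun _ => 0) := by
    refine ⟨⟨Or.inl rfl, Or.inr rfl, ?_, ?_, ?_, ?_, ?_, ?_, ?_, ?_, ?_⟩, ⟨?_, ?_, ?_⟩, ?_, Sm.pair _ _⟩
    · intro z z' hz hz'
      rw [hN0z z hz, hN0z z' hz', add_zero]
      exact Or.inl rfl
    · intro x z hx
      exact absurd hx (hN0l x)
    · intro x z hx
      exact absurd hx (hN0l x)
    · intro x z hx
      exact absurd hx (hN0l x)
    · intro z hz _
      rw [hN0z z hz, h00]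
      exact Or.inr rfl
    · intro q q' hq hq'
      rw [hN0p q hq, hN0p q' hq', add_zero]
      exact Or.inr rfl
    · intro x q hx
      exact absurd hx (hN0l x)
    · intro q hq y hy
      rw [hN0p q hq] at hy
      simp at hy
    · intro q hq y
      rw [hN0p q hq]
      exact In_zero _
    · intro z z' _ _
      rw [add_zero]
    · intro x z _ _
      rw [smul_zero]
    · intro z hz _
      rw [hN0z z hz, h00]
    · intro x
      refine ⟨th ∘ₗ kapL H x, ?_, ?_⟩
      · intro z hz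
        rw [LinearMap.comp_apply]
        have : kapL H x z = (1 - e x) • (⟨z, hz⟩ : K) := by
          apply Subtype.ext
          change (1 - e x) • z - Finsupp.linearCombination S id (al x z) = (1 - e x) • z
          rw [H.alK x z hz, map_zero, sub_zero]
        rw [this, map_smul, ← H.ext]
      · intro z hz
        rw [hN0z z hz, map_zero, smul_zero]
  obtain ⟨B, hB, hBx⟩ := exists_exhaust (U := L ⊕ Z) (by
    rw [Cardinal.mk_sum, Cardinal.lift_id, Cardinal.lift_id]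
    exact Cardinal.add_le_of_le aleph0_le_L le_rfl hZ)
  let inj : L ⊕ Z → UU Z Y := Sum.elim (fun x => il x) (fun z => iz z)
  let G : Type := {p : Set (UU Z Y) × (Z → PP Y) // Good K al th' p.1 p.2}
  let nx : ℕ → G → G := fun n g =>
    ⟨((step H g.2 (inj '' B n) ((hB n).image _)).choose,
      (step H g.2 (inj '' B n) ((hB n).image _)).choose_spec.choose),
      (step H g.2 (inj '' B n) ((hB n).image _)).choose_spec.choose_spec.1⟩
  have hnx : ∀ n g, g.1.1 ⊆ (nx n g).1.1 ∧ inj '' B n ⊆ (nx n g).1.1 ∧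
      ∀ z, iz z ∈ g.1.1 → (nx n g).1.2 z = g.1.2 z := fun n g =>
    (step H g.2 (inj '' B n) ((hB n).image _)).choose_spec.choose_spec.2
  let s : ℕ → G := fun n => Nat.rec ⟨(N0, fun _ => 0), g0⟩ (fun n g => nx n g) n
  have hs : ∀ n, s (n + 1) = nx n (s n) := fun n => rfl
  have hmono : ∀ m n, m ≤ n → (s m).1.1 ⊆ (s n).1.1 ∧
      ∀ z, iz z ∈ (s m).1.1 → (s n).1.2 z = (s m).1.2 z := by
    intro m n hmn
    induction n, hmn using Nat.le_induction with
    | base => exact ⟨Set.Subset.refl _, fun _ _ => rfl⟩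
    | succ n hmn ih =>
      rw [hs]
      have := hnx n (s n)
      refine ⟨ih.1.trans this.1, fun z hz => ?_⟩
      rw [this.2.2 z (ih.1 hz), ih.2 z hz]
  have hz : ∀ z : Z, ∃ n, iz z ∈ (s n).1.1 := by
    intro z
    obtain ⟨n, hn⟩ := hBx (Sum.inr z)
    exact ⟨n + 1, (hnx n (s n)).2.1 ⟨_, hn, rfl⟩⟩
  have hl : ∀ x : L, ∃ n, il x ∈ (s n).1.1 := by
    intro x
    obtain ⟨n, hn⟩ := hBx (Sum.inl x)
    exact ⟨n + 1, (hnx n (s n)).2.1 ⟨_, hn, rfl⟩⟩
  choose nz hnz using hz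
  let Th : Z → PP Y := fun z => (s (nz z)).1.2 z
  have hTh : ∀ z n, iz z ∈ (s n).1.1 → Th z = (s n).1.2 z := by
    intro z n hn
    rcases le_total (nz z) n with h | h
    · exact ((hmono _ _ h).2 z (hnz z)).symm
    · exact (hmono _ _ h).2 z hn
  have hadd : ∀ z z', Th (z + z') = Th z + Th z' := by
    intro z z'
    have h1 := (hmono _ _ (le_max_left (nz z) (nz z'))).1 (hnz z)
    have h2 := (hmono _ _ (le_max_right (nz z) (nz z'))).1 (hnz z')
    rw [hTh z _ h1, hTh z' _ h2, hTh _ _ ((s _).2.clo.zadd _ _ h1 h2), (s _).2.pre.add _ _ h1 h2]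
  have hsm : ∀ x z, Th (e x • z) = e x • Th z := by
    intro x z
    obtain ⟨n, hn⟩ := hl x
    have h1 := (hmono _ _ (le_max_left (nz z) n)).1 (hnz z)
    have h2 := (hmono _ _ (le_max_right (nz z) n)).1 hn
    rw [hTh z _ h1, hTh _ _ ((s _).2.clo.zsmul _ _ h2 h1), (s _).2.pre.smul _ _ h2 h1]
  have hT0 : Th 0 = 0 := by
    have := hadd 0 0
    rw [add_zero] at this
    exact left_eq_add.1 this
  have hsmul : ∀ (t : S) z, Th (t • z) = t • Th z := by
    intro t
    refine In_induction Set.univ (p := fun t => ∀ z, Th (t • z) = t • Th z) ?_ ?_ ?_ ?_ t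
      (fun _ _ _ _ => Set.mem_univ _)
    · intro z
      rw [zero_smul, zero_smul, hT0]
    · intro t t' h1 h2 z
      rw [add_smul, add_smul, hadd, h1, h2]
    · intro z
      rw [one_smul, one_smul]
    · intro x _ t h1 z
      rw [mul_smul, mul_smul, hsm, h1]
  refine ⟨{ toFun := Th, map_add' := hadd, map_smul' := hsmul }, ?_⟩
  intro z
  change Th z = th z
  rw [hTh _ _ (hnz z), (s _).2.pre.res _ (hnz z) z.2, H.ext]

end Pool.Agent.R226.RC
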